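import Pool.Agent.H63.VC3.BWff
import Pool.Agent.H63.VC5.FFdilog
import Pool.Agent.S3.Defs

/-!
# Stage 3, block G2: the real part of the potential and the Bloch-Wigner function
-/

namespace Pool.Agent.S3.G

open Complex Pool.Agent.H63.VC Pool.Agent.H63.VC3 Pool.Agent.H63.VC4 Pool.Agent.H63.VC5
open scoped ComplexConjugate

/-- The Bloch-Wigner function and the dilogarithm in the unit disk. -/
theorem bw_dilog (w : ℂ) (h0 : w ≠ 0) (h1 : ‖w‖ < 1) :
    blochWigner w = (dilog w).im + (arg (1 - w)) * Real.log ‖w‖ := by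
  have hpi := Real.pi_pos
  by_cases hw : w.arg = 0
  · -- positive real numbers
    obtain ⟨hre, him⟩ := Complex.arg_eq_zero_iff.1 hw
    have hw' : w = (w.re : ℂ) := by
      apply Complex.ext
      · simp
      · simpa using him
    have hr1 : w.re < 1 := by
      have := Complex.re_le_norm w
      linarith
    rw [hw', blochWigner_real]
    have e1 : (1 : ℂ) - (w.re : ℂ) = ((1 - w.re : ℝ) : ℂ) := by push_cast; ring
    have e2 : arg (1 - (w.re : ℂ)) = 0 := by
      rw [e1, Complex.arg_ofReal_of_nonneg (by linarith)]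
    have e3 : dilog (w.re : ℂ) =
        ((-∫ t in (0 : ℝ)..1, Real.log (1 - t * w.re) / t : ℝ) : ℂ) := by
      unfold dilog
      push_cast
      rw [← intervalIntegral.integral_ofReal]
      congr 1
      refine intervalIntegral.integral_congr (fun t ht => ?_)
      rw [Set.uIcc_of_le zero_le_one] at ht
      have h2 : 0 ≤ 1 - t * w.re := by nlinarith [ht.1, ht.2]
      show Complex.log (1 - (t : ℂ) * (w.re : ℂ)) / (t : ℂ) = _
      rw [show (1 : ℂ) - (t : ℂ) * (w.re : ℂ) = ((1 - t * w.re : ℝ) : ℂ) by push_cast; ring,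
        ← Complex.ofReal_log h2]
      push_cast
      rfl
    rw [e2, e3, Complex.ofReal_im]
    simp
  · -- the strip
    obtain ⟨z, hz0, hz1, hz⟩ : ∃ z : ℂ, 0 < z.re ∧ z.re < 1 ∧ exp (2 * Real.pi * I * z) = w := by
      have hpi' : (Real.pi : ℂ) ≠ 0 := Complex.ofReal_ne_zero.2 hpi.ne'
      have e1 : ∀ n : ℤ, (log w / (2 * Real.pi * I) + n).re = w.arg / (2 * Real.pi) + n := by
        intro n
        have : log w / (2 * Real.pi * I) = ((w.arg / (2 * Real.pi) : ℝ) : ℂ) +
            ((-(Real.log ‖w‖) / (2 * Real.pi) : ℝ) : ℂ) * I := by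
          rw [div_eq_iff (by simp [hpi'])]
          conv_lhs => rw [← Complex.re_add_im (log w), Complex.log_re, Complex.log_im]
          push_cast
          field_simp
          linear_combination (Real.log ‖w‖ : ℂ) * I_sq
        rw [this, Complex.add_re, Complex.add_re, Complex.ofReal_re, Complex.re_ofReal_mul,
          Complex.I_re, Complex.intCast_re, mul_zero, add_zero]
      have e2 : ∀ n : ℤ, exp (2 * Real.pi * I * (log w / (2 * Real.pi * I) + n)) = w := by
        intro n
        have : 2 * Real.pi * I * (log w / (2 * Real.pi * I) + n) =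
            log w + n * (2 * Real.pi * I) := by
          field_simp
        rw [this, Complex.exp_add, Complex.exp_log h0, Complex.exp_int_mul_two_pi_mul_I, mul_one]
      have h2 := Complex.arg_le_pi w
      have h3 := Complex.neg_pi_lt_arg w
      rcases lt_or_gt_of_ne hw with h | h
      · refine ⟨_, ?_, ?_, e2 1⟩
        · rw [e1]
          have : -(1 / 2) < w.arg / (2 * Real.pi) := by
            rw [lt_div_iff₀ (by positivity)]
            linarith
          push_cast
          linarith
        · rw [e1]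
          have : w.arg / (2 * Real.pi) < 0 := div_neg_of_neg_of_pos h (by positivity)
          push_cast
          linarith
      · refine ⟨_, ?_, ?_, e2 0⟩
        · rw [e1]
          have : 0 < w.arg / (2 * Real.pi) := div_pos h (by positivity)
          push_cast
          linarith
        · rw [e1]
          have : w.arg / (2 * Real.pi) ≤ 1 / 2 := by
            rw [div_le_iff₀ (by positivity)]
            linarith
          push_cast
          linarith
    have f1 := ff_re_bw z hz0 hz1
    have f2 := congrArg Complex.im (ff_dilog z hz0 hz1)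
    have f3 := congrArg Complex.im (hh_log z hz0 hz1)
    have f4 : Real.log ‖w‖ = -(2 * Real.pi * z.im) := by
      rw [← hz, Complex.norm_exp, Real.log_exp]
      simp
    rw [hz] at f1 f2 f3
    rw [Complex.log_im] at f3
    have g1 : (2 * Real.pi * I * ff z : ℂ).im = 2 * Real.pi * (ff z).re := by
      have : (2 * Real.pi * I * ff z : ℂ) = ((2 * Real.pi : ℝ) : ℂ) * (I * ff z) := by
        push_cast
        ring
      rw [this, Complex.im_ofReal_mul, Complex.I_mul_im]
    have g2 : (-dilog w + (Real.pi : ℂ) ^ 2 * (z ^ 2 - z + 1 / 6)).im =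
        -(dilog w).im + Real.pi ^ 2 * (2 * z.re * z.im - z.im) := by
      have : ((Real.pi : ℂ) ^ 2 * (z ^ 2 - z + 1 / 6)) =
          ((Real.pi ^ 2 : ℝ) : ℂ) * (z * z - z + ((1 / 6 : ℝ) : ℂ)) := by
        push_cast
        ring
      rw [Complex.add_im, Complex.neg_im, this, Complex.im_ofReal_mul, Complex.add_im,
        Complex.sub_im, Complex.mul_im, Complex.ofReal_im]
      ring
    have g3 : (hh z + Real.pi * I * (z - 1 / 2)).im = (hh z).im + Real.pi * (z.re - 1 / 2) := by
      have : (Real.pi * I * (z - 1 / 2) : ℂ) = ((Real.pi : ℝ) : ℂ) * (I * (z - ((1 / 2 : ℝ) : ℂ))) := by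
        push_cast
        ring
      rw [Complex.add_im, this, Complex.im_ofReal_mul, Complex.I_mul_im, Complex.sub_re,
        Complex.ofReal_re]
    rw [g1, g2] at f2
    rw [g3] at f3
    rw [f3, f4]
    linear_combination f1 - f2

/-- The domain of `fe`. -/
def fdo (z : ℂ) : Prop := z.im ≠ 0 ∨ (0 < z.re ∧ z.re < 1)

theorem fe_re_bw (z : ℂ) (h : fdo z) :
    2 * Real.pi * (fe z).re = -blochWigner (exp (2 * Real.pi * I * z)) -
      2 * Real.pi * z.im * (he z).im := by
  have hpi := Real.pi_pos
  have hpi' : (Real.pi : ℂ) ≠ 0 := Complex.ofReal_ne_zero.2 hpi.ne'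
  have g2 : (((Real.pi : ℂ) ^ 2 * (z ^ 2 - z + 1 / 6))).im =
      Real.pi ^ 2 * (2 * z.re * z.im - z.im) := by
    have : ((Real.pi : ℂ) ^ 2 * (z ^ 2 - z + 1 / 6)) =
        ((Real.pi ^ 2 : ℝ) : ℂ) * (z * z - z + ((1 / 6 : ℝ) : ℂ)) := by
      push_cast
      ring
    rw [this, Complex.im_ofReal_mul, Complex.add_im, Complex.sub_im, Complex.mul_im,
      Complex.ofReal_im]
    ring
  have g3 : (Real.pi * I * (z - 1 / 2) : ℂ).im = Real.pi * (z.re - 1 / 2) := by
    have : (Real.pi * I * (z - 1 / 2) : ℂ) = ((Real.pi : ℝ) : ℂ) * (I * (z - ((1 / 2 : ℝ) : ℂ))) := by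
      push_cast
      ring
    rw [this, Complex.im_ofReal_mul, Complex.I_mul_im, Complex.sub_re, Complex.ofReal_re]
  have g4 : ∀ x : ℂ, 2 * Real.pi * (x / (2 * Real.pi * I)).re = x.im := by
    intro x
    have e : x / (2 * Real.pi * I) = (((2 * Real.pi)⁻¹ : ℝ) : ℂ) * (-(I * x)) := by
      push_cast
      rw [div_eq_iff (by simp [hpi'])]
      field_simp
      linear_combination x * I_sq
    rw [e, Complex.re_ofReal_mul, Complex.neg_re, Complex.I_mul_re, neg_neg]
    field_simp
  rcases lt_trichotomy z.im 0 with hz | hz | hz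
  · -- lower half plane
    have n1 : ‖exp (-(2 * Real.pi * I * z))‖ < 1 := by
      rw [Complex.norm_exp]
      have : (-(2 * Real.pi * I * z)).re = 2 * Real.pi * z.im := by simp
      rw [this, Real.exp_lt_one_iff]
      nlinarith
    have n2 : Real.log ‖exp (-(2 * Real.pi * I * z))‖ = 2 * Real.pi * z.im := by
      rw [Complex.norm_exp, Real.log_exp]
      simp
    have k1 := bw_dilog _ (Complex.exp_ne_zero (-(2 * Real.pi * I * z))) n1
    rw [n2] at k1
    have k2 : blochWigner (exp (2 * Real.pi * I * z)) =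
        -blochWigner (exp (-(2 * Real.pi * I * z))) := by
      rw [Complex.exp_neg, SWpath_inv, neg_neg]
    rw [k2, k1]
    unfold fe he
    rw [if_neg (by linarith), if_pos hz, if_neg (by linarith), if_pos hz, div_neg, Complex.neg_re,
      mul_neg, g4, Complex.add_im, Complex.neg_im, g2, Complex.add_im, g3, Complex.log_im]
    ring
  · have hs : 0 < z.re ∧ z.re < 1 := by
      rcases h with h | h
      · exact absurd hz h
      · exact h
    unfold fe he
    rw [if_neg (by linarith), if_neg (by linarith), if_neg (by linarith), if_neg (by linarith)]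
    exact ff_re_bw z hs.1 hs.2
  · have n1 : ‖exp (2 * Real.pi * I * z)‖ < 1 := by
      rw [Complex.norm_exp]
      have : (2 * Real.pi * I * z).re = -(2 * Real.pi * z.im) := by simp
      rw [this, Real.exp_lt_one_iff]
      nlinarith
    have n2 : Real.log ‖exp (2 * Real.pi * I * z)‖ = -(2 * Real.pi * z.im) := by
      rw [Complex.norm_exp, Real.log_exp]
      simp
    have k1 := bw_dilog _ (Complex.exp_ne_zero (2 * Real.pi * I * z)) n1
    rw [n2] at k1
    rw [k1]
    unfold fe he
    rw [if_pos hz, if_pos hz, g4, Complex.add_im, Complex.neg_im, g2, Complex.sub_im, g3,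
      Complex.log_im]
    ring

/-! ### The pieces of the potential -/

/-- The derivative of `sP` with respect to `y`. -/
noncomputable def dsP (y : ℂ) : Sl → ℂ
  | .op v => 2 * hh (y + 1 / 2) - he (y - v) - he (y + v)
  | .cl s => hh (y + 1 / 2) - Real.pi * I * s * (1 - y)

/-- The Bloch-Wigner terms of a slot. -/
noncomputable def bwP (y : ℂ) : Sl → ℝ
  | .op v => blochWigner (exp (2 * Real.pi * I * (y - v))) +
      blochWigner (exp (2 * Real.pi * I * (y + v))) -
      2 * blochWigner (-exp (2 * Real.pi * I * y))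
  | .cl _ => -blochWigner (-exp (2 * Real.pi * I * y))

/-- The derivative of `sP y (op v)` with respect to `v`. -/
noncomputable def vsP (y v : ℂ) : ℂ := he (y - v) - he (y + v)

theorem half_bw (y : ℂ) (h0 : -(1 / 2) < y.re) (h1 : y.re < 1 / 2) :
    2 * Real.pi * (ff (y + 1 / 2)).re = -blochWigner (-exp (2 * Real.pi * I * y)) -
      2 * Real.pi * y.im * (hh (y + 1 / 2)).im := by
  have c0 : (y + 1 / 2).re = y.re + 1 / 2 := by
    rw [Complex.add_re]
    norm_num
  have c3 : (y + 1 / 2).im = y.im := by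
    rw [Complex.add_im]
    norm_num
  have f0 := ff_re_bw (y + 1 / 2) (by rw [c0]; linarith) (by rw [c0]; linarith)
  have e0 : exp (2 * Real.pi * I * (y + 1 / 2)) = -exp (2 * Real.pi * I * y) := by
    have e : (2 * Real.pi * I * (y + 1 / 2) : ℂ) = 2 * Real.pi * I * y + Real.pi * I := by ring
    rw [e, Complex.exp_add, Complex.exp_pi_mul_I]
    ring
  rw [e0, c3] at f0
  exact f0

theorem sP_op_re (y v : ℂ) (h0 : -(1 / 2) < y.re) (h1 : y.re < 1 / 2) (d1 : fdo (y - v))
    (d2 : fdo (y + v)) :
    2 * Real.pi * (sP y (.op v)).re = bwP y (.op v) - 2 * Real.pi * y.im * (dsP y (.op v)).im -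
      2 * Real.pi * v.im * (vsP y v).im := by
  have f0 := half_bw y h0 h1
  have f1 := fe_re_bw _ d1
  have f2 := fe_re_bw _ d2
  have e1 : (2 * ff (y + 1 / 2)).re = 2 * (ff (y + 1 / 2)).re := by simp
  have e2 : (2 * hh (y + 1 / 2)).im = 2 * (hh (y + 1 / 2)).im := by simp
  simp only [sP, dsP, bwP, vsP, Complex.sub_re, Complex.sub_im, Complex.add_im, e1, e2] at *
  linear_combination 2 * f0 - f1 - f2

theorem sP_cl_re (y : ℂ) (s : ℤ) (h0 : -(1 / 2) < y.re) (h1 : y.re < 1 / 2) :
    2 * Real.pi * (sP y (.cl s)).re = bwP y (.cl s) - 2 * Real.pi * y.im * (dsP y (.cl s)).im := by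
  have f0 := half_bw y h0 h1
  have e1 : (Real.pi * I * s * (y - y ^ 2 / 2 - 7 / 8) : ℂ).re =
      -(Real.pi * s * (y.im - y.re * y.im)) := by
    have : (Real.pi * I * s * (y - y ^ 2 / 2 - 7 / 8) : ℂ) =
        ((Real.pi * s : ℝ) : ℂ) * (I * (y - ((1 / 2 : ℝ) : ℂ) * (y * y) - ((7 / 8 : ℝ) : ℂ))) := by
      push_cast
      ring
    rw [this, Complex.re_ofReal_mul, Complex.I_mul_re, Complex.sub_im, Complex.sub_im,
      Complex.im_ofReal_mul, Complex.mul_im, Complex.ofReal_im]
    ring
  have e2 : (Real.pi * I * s * (1 - y) : ℂ).im = Real.pi * s * (1 - y.re) := by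
    have : (Real.pi * I * s * (1 - y) : ℂ) = ((Real.pi * s : ℝ) : ℂ) * (I * (1 - y)) := by
      push_cast
      ring
    rw [this, Complex.im_ofReal_mul, Complex.I_mul_im, Complex.sub_re, Complex.one_re]
  simp only [sP, dsP, bwP, Complex.sub_re, Complex.sub_im, e1, e2]
  linear_combination f0

/-- The derivative of `wr`. -/
noncomputable def dwr (r : ℝ) (v : ℂ) : ℂ := 2 * Real.pi * I * (2 * r * v + 1)

theorem wr_re (r : ℝ) (v : ℂ) :
    2 * Real.pi * (wr r v).re = -(2 * Real.pi * v.im * (dwr r v).im) := by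
  have e1 : (wr r v).re = -(2 * Real.pi * (r * (2 * v.re * v.im) + v.im)) := by
    have : wr r v = ((2 * Real.pi : ℝ) : ℂ) * (I * ((r : ℂ) * (v * v) + v)) := by
      unfold wr
      push_cast
      ring
    rw [this, Complex.re_ofReal_mul, Complex.I_mul_re, Complex.add_im, Complex.im_ofReal_mul,
      Complex.mul_im]
    ring
  have e2 : (dwr r v).im = 2 * Real.pi * (2 * r * v.re + 1) := by
    have : dwr r v = ((2 * Real.pi : ℝ) : ℂ) * (I * (((2 * r : ℝ) : ℂ) * v + 1)) := by
      unfold dwr
      push_cast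
      ring
    rw [this, Complex.im_ofReal_mul, Complex.I_mul_im, Complex.add_re, Complex.re_ofReal_mul,
      Complex.one_re]
  rw [e1, e2]
  ring

end Pool.Agent.S3.G
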