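import Pool.Agent.S3.G.Fan

/-!
# Stage 3, block G2: the volume as a sum over the edges

With `Y = (κ + i C) / (κ - i C)`, `C = cosh q'`, the share `sD z q'` of a slot is given by the
Bloch-Wigner functions of `Y / q`, `Y q`, `-Y` and of the shape parameter of the hinge.
-/

namespace Pool.Agent.S3.G

open Complex Pool.Agent.H63.VC Pool.Agent.H63.VC3 Pool.Agent.H63.VC4
open scoped ComplexConjugate

/-- `exp (2 π i y)` of a slot. -/
noncomputable def Yy (κ C : ℂ) : ℂ := (κ + I * C) / (κ - I * C)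

/-- The terms of a slot. -/
noncomputable def sW (Y q : ℂ) : ℝ :=
  blochWigner (Y / q) + blochWigner (Y * q) - 2 * blochWigner (-Y)

theorem one_add_q (z : ℂ) : 1 + exp (2 * I * z) = 2 * cos z * exp (I * z) := by
  have e1 : exp (2 * I * z) = exp (I * z) * exp (I * z) := by
    rw [← Complex.exp_add]
    congr 1
    ring
  have e2 : exp (-z * I) * exp (I * z) = 1 := by
    rw [← Complex.exp_add, show -z * I + I * z = 0 by ring, Complex.exp_zero]
  rw [Complex.cos, e1, mul_comm z I]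
  linear_combination -e2

theorem one_sub_q (z : ℂ) : 1 - exp (2 * I * z) = -(2 * I * sin z * exp (I * z)) := by
  have e1 : exp (2 * I * z) = exp (I * z) * exp (I * z) := by
    rw [← Complex.exp_add]
    congr 1
    ring
  have e2 : exp (-z * I) * exp (I * z) = 1 := by
    rw [← Complex.exp_add, show -z * I + I * z = 0 by ring, Complex.exp_zero]
  rw [Complex.sin, e1, mul_comm z I]
  linear_combination -e2 + (exp (-z * I) * exp (I * z) - exp (I * z) * exp (I * z)) * I_sq

theorem slot_alg (z q' κ : ℂ) (hc : cos z ≠ 0) (hκ : κ ≠ 0)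
    (hsl : sinh q' = κ * tan z) (hU : κ ^ 2 + cos z ^ 2 ≠ 0) :
    κ - I * cosh q' ≠ 0 ∧ κ + I * cosh q' ≠ 0 ∧
      (Yy κ (cosh q') - exp (2 * I * z)) * (κ - I * cosh q') =
        2 * I * exp (I * z) * cos z * exp (-q') ∧
      (Yy κ (cosh q') * exp (2 * I * z) - 1) * (κ - I * cosh q') =
        2 * I * exp (I * z) * cos z * exp q' ∧
      (1 + Yy κ (cosh q')) * (κ - I * cosh q') = 2 * κ := by
  have h1 : κ ^ 2 + cosh q' ^ 2 = (κ ^ 2 + cos z ^ 2) / cos z ^ 2 := by
    have e1 := cosh_sq q'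
    have e2 := sin_sq_add_cos_sq z
    rw [e1, hsl, tan_eq_sin_div_cos]
    field_simp
    linear_combination κ ^ 2 * e2
  have h2 : (κ - I * cosh q') * (κ + I * cosh q') = (κ ^ 2 + cos z ^ 2) / cos z ^ 2 := by
    rw [← h1]
    linear_combination -(cosh q') ^ 2 * I_sq
  have h3 : (κ - I * cosh q') * (κ + I * cosh q') ≠ 0 := by
    rw [h2]
    exact div_ne_zero hU (pow_ne_zero 2 hc)
  have n1 := left_ne_zero_of_mul h3
  have n2 := right_ne_zero_of_mul h3
  have hY : Yy κ (cosh q') * (κ - I * cosh q') = κ + I * cosh q' := by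
    unfold Yy
    rw [div_mul_cancel₀ _ n1]
  have s1 : κ * sin z = sinh q' * cos z := by
    rw [hsl, tan_eq_sin_div_cos]
    field_simp
  have q1 := one_add_q z
  have q2 := one_sub_q z
  have c1 : exp q' = cosh q' + sinh q' := (cosh_add_sinh q').symm
  have c2 : exp (-q') = cosh q' - sinh q' := (cosh_sub_sinh q').symm
  refine ⟨n1, n2, ?_, ?_, ?_⟩
  · rw [sub_mul, hY, c2]
    linear_combination κ * q2 + I * cosh q' * q1 - 2 * I * exp (I * z) * s1
  · have : (Yy κ (cosh q') * exp (2 * I * z) - 1) * (κ - I * cosh q') =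
        (Yy κ (cosh q') * (κ - I * cosh q')) * exp (2 * I * z) - (κ - I * cosh q') := by ring
    rw [this, hY, c1]
    linear_combination -κ * q2 + I * cosh q' * q1 + 2 * I * exp (I * z) * s1
  · rw [add_mul, hY]
    ring

/-- The share of a slot in the volume. -/
theorem sD_eq (z q' κ : ℂ) (hc : cos z ≠ 0) (hs : sin z ≠ 0) (hκ : κ ≠ 0)
    (hsl : sinh q' = κ * tan z) (hU : κ ^ 2 + cos z ^ 2 ≠ 0) :
    2 * sD z q' = sW (Yy κ (cosh q')) (exp (2 * I * z)) - blochWigner (-(cos z / κ) ^ 2) := by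
  obtain ⟨n1, n2, e1, e2, e3⟩ := slot_alg z q' κ hc hκ hsl hU
  have hI : 2 * I * exp (I * z) * cos z ≠ 0 :=
    mul_ne_zero (mul_ne_zero (mul_ne_zero two_ne_zero I_ne_zero) (Complex.exp_ne_zero _)) hc
  have hY0 : Yy κ (cosh q') ≠ 0 := div_ne_zero n2 n1
  have m1 : Yy κ (cosh q') - exp (2 * I * z) ≠ 0 :=
    left_ne_zero_of_mul (by rw [e1]; exact mul_ne_zero hI (Complex.exp_ne_zero _))
  have m2 : Yy κ (cosh q') * exp (2 * I * z) - 1 ≠ 0 :=
    left_ne_zero_of_mul (by rw [e2]; exact mul_ne_zero hI (Complex.exp_ne_zero _))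
  have m3 : 1 + Yy κ (cosh q') ≠ 0 :=
    left_ne_zero_of_mul (by rw [e3]; exact mul_ne_zero two_ne_zero hκ)
  have m4 : 1 + exp (2 * I * z) ≠ 0 := by
    rw [one_add_q]
    exact mul_ne_zero (mul_ne_zero two_ne_zero hc) (Complex.exp_ne_zero _)
  have m5 : exp (2 * I * z) - 1 ≠ 0 := by
    have h1 := one_sub_q z
    intro h0
    have h2 : 2 * I * sin z * exp (I * z) = 0 := by linear_combination h1 + h0
    exact mul_ne_zero (mul_ne_zero (mul_ne_zero two_ne_zero I_ne_zero) hs)
      (Complex.exp_ne_zero _) h2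
  have hq0 : exp (2 * I * z) ≠ 0 := Complex.exp_ne_zero _
  -- the exponential of `2 q'`
  have he : exp (2 * q') = (Yy κ (cosh q') * exp (2 * I * z) - 1) /
      (Yy κ (cosh q') - exp (2 * I * z)) := by
    have h1 : exp (2 * q') * exp (-q') = exp q' := by
      rw [← Complex.exp_add]
      congr 1
      ring
    rw [eq_div_iff m1]
    have h2 : exp (2 * q') * (Yy κ (cosh q') - exp (2 * I * z)) * (κ - I * cosh q') =
        (Yy κ (cosh q') * exp (2 * I * z) - 1) * (κ - I * cosh q') := by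
      rw [mul_assoc, e1, e2, ← h1]
      ring
    exact mul_right_cancel₀ n1 h2
  -- the shape parameter of the hinge
  have hUU : (Yy κ (cosh q') - exp (2 * I * z)) * (Yy κ (cosh q') - 1 / exp (2 * I * z)) /
      (1 + Yy κ (cosh q')) ^ 2 = -(cos z / κ) ^ 2 := by
    have h1 : (Yy κ (cosh q') - 1 / exp (2 * I * z)) =
        (Yy κ (cosh q') * exp (2 * I * z) - 1) / exp (2 * I * z) := by
      field_simp
    have h2 : exp (-q') * exp q' = 1 := by
      rw [← Complex.exp_add, neg_add_cancel, Complex.exp_zero]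
    have h3 : exp (2 * I * z) = exp (I * z) * exp (I * z) := by
      rw [← Complex.exp_add]
      congr 1
      ring
    have h4 : (Yy κ (cosh q') - exp (2 * I * z)) * (Yy κ (cosh q') * exp (2 * I * z) - 1) *
        (κ - I * cosh q') ^ 2 = -(4 * exp (2 * I * z) * cos z ^ 2) := by
      have : (Yy κ (cosh q') - exp (2 * I * z)) * (Yy κ (cosh q') * exp (2 * I * z) - 1) *
        (κ - I * cosh q') ^ 2 = ((Yy κ (cosh q') - exp (2 * I * z)) * (κ - I * cosh q')) *
          ((Yy κ (cosh q') * exp (2 * I * z) - 1) * (κ - I * cosh q')) := by ring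
      rw [this, e1, e2, h3]
      linear_combination (4 * exp (I * z) ^ 2 * cos z ^ 2 * I ^ 2) * h2 +
        (4 * exp (I * z) ^ 2 * cos z ^ 2) * I_sq
    have h5 : (1 + Yy κ (cosh q')) ^ 2 * (κ - I * cosh q') ^ 2 = 4 * κ ^ 2 := by
      rw [← mul_pow, e3]
      ring
    rw [h1, mul_div_assoc', div_div, div_pow, ← neg_div,
      div_eq_div_iff (mul_ne_zero hq0 (pow_ne_zero 2 m3)) (pow_ne_zero 2 hκ)]
    have h6 : (κ - I * cosh q') ^ 2 ≠ 0 := pow_ne_zero 2 n1
    apply mul_right_cancel₀ h6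
    linear_combination κ ^ 2 * h4 + cos z ^ 2 * exp (2 * I * z) * h5
  obtain ⟨k1, k2⟩ := bw_quad (Yy κ (cosh q')) (exp (2 * I * z)) hY0 hq0 m3 m4
    (sub_ne_zero.1 m1) (sub_ne_zero.1 m2)
  rw [hUU] at k2
  have hsD : sD z q' = blochWigner (Yy κ (cosh q') * ((1 + exp (2 * I * z)) /
      (1 + Yy κ (cosh q')))) + blochWigner (Yy κ (cosh q') * ((1 + exp (2 * I * z)) /
        (exp (2 * I * z) * (1 + Yy κ (cosh q'))))) := by
    unfold sD
    rw [he]
    clear k1 k2 hUU he e1 e2 e3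
    generalize exp (2 * I * z) = q at *
    generalize Yy κ (cosh q') = Y at *
    have a1 : (Y * q - 1) / (Y - q) - 1 = (1 + Y) * (q - 1) / (Y - q) := by
      field_simp
      ring
    have a2 : q * ((Y * q - 1) / (Y - q)) - 1 = Y * (1 + q) * (q - 1) / (Y - q) := by
      field_simp
      ring
    have a3 : Y * (1 + q) * (q - 1) / (Y - q) / ((1 + Y) * (q - 1) / (Y - q)) =
        Y * ((1 + q) / (1 + Y)) := by
      rw [div_div_div_cancel_right₀ m1]
      field_simp
    have a4 : Y * (1 + q) * (q - 1) / (Y - q) / (q - 1) =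
        (1 - (Y * ((1 + q) / (q * (1 + Y))))⁻¹)⁻¹ := by
      have : 1 - (Y * ((1 + q) / (q * (1 + Y))))⁻¹ = (Y - q) / (Y * (1 + q)) := by
        field_simp
        ring
      rw [this, inv_div]
      field_simp
    rw [a1, a2, a3, a4, SWpath_inv, SWpath_one_sub, SWpath_inv]
    ring
  rw [hsD]
  unfold sW
  linarith

variable {R : ℕ} {a : ℕ → ℕ} {z ql qr : ℕ → ℂ}

/-- `Y` of the right slot of the vertex `i`. -/
noncomputable def Yr (z qr : ℕ → ℂ) (i : ℕ) : ℂ := Yy (conj (cos (z (i + 1)))) (cosh (qr i))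

/-- `Y` of the left slot of the vertex `i + 1`. -/
noncomputable def Yl (z ql : ℕ → ℂ) (i : ℕ) : ℂ := Yy (conj (cos (z i))) (cosh (ql (i + 1)))

theorem Crt.zz_end (h : Crt R a z ql qr) (i : ℕ) (hi : i < R) :
    zz z ql i (a i) = -(cos (z i) / conj (cos (z (i + 1)))) ^ 2 := by
  unfold zz
  rw [h.X_end i hi, cos_conj, map_div₀, conj_conj, div_pow, div_pow, inv_div]

theorem Crt.zz_start (h : Crt R a z ql qr) (i : ℕ) (hi : i < R) :
    zz z ql (i + 1) 0 = -(cos (z (i + 1)) / conj (cos (z i))) ^ 2 := by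
  unfold zz
  rw [h.X_start i hi, cos_conj, map_div₀, conj_conj, div_pow, div_pow, inv_div]

theorem Crt.hinge_ne (h : Crt R a z ql qr) (i : ℕ) (hi : i < R) :
    conj (cos (z (i + 1))) ^ 2 + cos (z i) ^ 2 ≠ 0 ∧
      conj (cos (z i)) ^ 2 + cos (z (i + 1)) ^ 2 ≠ 0 := by
  have hn : conj (cos (z (i + 1))) ≠ 0 := by
    rw [Ne, map_eq_zero]
    exact cos_ne (h.zre (i + 1) hi)
  have h1 := im_shape (h.X_end_quad i hi)
  have h2 : 0 < (zz z ql i (a i)).im := h1
  have h3 : conj (cos (z (i + 1))) ^ 2 + cos (z i) ^ 2 ≠ 0 := by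
    intro h0
    rw [h.zz_end i hi] at h2
    have : -(cos (z i) / conj (cos (z (i + 1)))) ^ 2 = 1 := by
      rw [div_pow, ← neg_div, div_eq_one_iff_eq (pow_ne_zero 2 hn)]
      linear_combination -h0
    rw [this] at h2
    simp at h2
  refine ⟨h3, fun h0 => h3 ?_⟩
  have h4 := congrArg conj h0
  rw [map_add, map_pow, map_pow, conj_conj, map_zero] at h4
  linear_combination h4

theorem Crt.sD_right (h : Crt R a z ql qr) (i : ℕ) (hi : i < R) :
    2 * sD (z i) (qr i) = sW (Yr z qr i) (exp (2 * I * z i)) - blochWigner (zz z ql i (a i)) := by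
  have hn : conj (cos (z (i + 1))) ≠ 0 := by
    rw [Ne, map_eq_zero]
    exact cos_ne (h.zre (i + 1) hi)
  rw [h.zz_end i hi]
  exact sD_eq _ _ _ (cos_ne (h.zre i hi.le)) (sin_ne (h.zre i hi.le)) hn (h.sr i hi)
    (h.hinge_ne i hi).1

theorem Crt.sD_left (h : Crt R a z ql qr) (i : ℕ) (hi : i < R) :
    2 * sD (z (i + 1)) (ql (i + 1)) = sW (Yl z ql i) (exp (2 * I * z (i + 1))) -
      blochWigner (zz z ql i (a i)) := by
  have hn : conj (cos (z i)) ≠ 0 := by
    rw [Ne, map_eq_zero]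
    exact cos_ne (h.zre i hi.le)
  have e : blochWigner (zz z ql i (a i)) = blochWigner (zz z ql (i + 1) 0) := by
    have h1 := h.opp_start i hi
    rw [eq_inv_of_mul_eq_one_left h1, SWpath_inv, bw_conj, neg_neg]
  rw [e, h.zz_start i hi]
  exact sD_eq _ _ _ (cos_ne (h.zre (i + 1) hi)) (sin_ne (h.zre (i + 1) hi)) hn (h.sl i hi)
    (h.hinge_ne i hi).2

/-- The two `Y` of an edge. -/
theorem Crt.Y_rel (h : Crt R a z ql qr) (i : ℕ) (hi : i < R) :
    Yl z ql i * conj (Yr z qr i) = 1 := by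
  have hn : conj (cos (z i)) ≠ 0 := by
    rw [Ne, map_eq_zero]
    exact cos_ne (h.zre i hi.le)
  have hn' : conj (cos (z (i + 1))) ≠ 0 := by
    rw [Ne, map_eq_zero]
    exact cos_ne (h.zre (i + 1) hi)
  obtain ⟨n1, n2, -⟩ := slot_alg (z i) (qr i) (conj (cos (z (i + 1)))) (cos_ne (h.zre i hi.le))
    hn' (h.sr i hi) (h.hinge_ne i hi).1
  obtain ⟨m1, m2, -⟩ := slot_alg (z (i + 1)) (ql (i + 1)) (conj (cos (z i)))
    (cos_ne (h.zre (i + 1) hi)) hn (h.sl i hi) (h.hinge_ne i hi).2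
  have hs := h.sign i hi
  rw [cos_conj, cosh_conj] at hs
  unfold Yl Yr Yy
  rw [map_div₀, map_add, map_sub, map_mul, conj_conj, conj_I]
  have k1 : cos (z (i + 1)) - -I * conj (cosh (qr i)) ≠ 0 := by
    have : conj (conj (cos (z (i + 1))) - I * cosh (qr i)) ≠ 0 := by
      rw [Ne, map_eq_zero]
      exact n1
    rw [map_sub, map_mul, conj_conj, conj_I] at this
    exact this
  rw [div_mul_div_comm, div_eq_one_iff_eq (mul_ne_zero m1 k1)]
  linear_combination (-2 * I) * hs

/-- **The volume of `C(a_0, ..., a_R)` as a sum over the edges.** -/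
theorem Crt.volume' (h : Crt R a z ql qr) :
    IsGreatest (structureVolumes ((List.range (R + 1)).map a))
      (∑ i ∈ Finset.range R, (sW (Yr z qr i) (exp (2 * I * z i)) +
        sW (Yl z ql i) (exp (2 * I * z (i + 1))))) := by
  have e0 : ∀ w : ℂ, sD w 0 = 0 := by
    intro w
    unfold sD
    by_cases hw : exp (2 * I * w) - 1 = 0
    · rw [mul_zero, Complex.exp_zero, mul_one, sub_self (1 : ℂ), div_zero, FanSum_zero, hw,
        div_zero, FanSum_zero, sub_zero]
    · rw [mul_zero, Complex.exp_zero, mul_one, sub_self (1 : ℂ), div_zero, FanSum_zero,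
        div_self hw, FanSum_one, sub_zero]
  have key := h.volume
  have e1 : (2 * ∑ i ∈ Finset.range (R + 1), ∑ k ∈ Finset.Icc 1 (a i - 1),
          blochWigner (zz z ql i k) +
        2 * ∑ i ∈ Finset.range R, blochWigner (zz z ql i (a i))) =
      ∑ i ∈ Finset.range R, (sW (Yr z qr i) (exp (2 * I * z i)) +
        sW (Yl z ql i) (exp (2 * I * z (i + 1)))) := by
    have e2 : ∑ i ∈ Finset.range (R + 1), ∑ k ∈ Finset.Icc 1 (a i - 1),
        blochWigner (zz z ql i k) =
        ∑ i ∈ Finset.range (R + 1), (sD (z i) (ql i) + sD (z i) (qr i)) :=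
      Finset.sum_congr rfl (fun i hi => h.fan_sum i (by
        have := Finset.mem_range.1 hi
        omega))
    rw [e2, Finset.sum_add_distrib, Finset.sum_range_succ', Finset.sum_range_succ (fun i =>
      sD (z i) (qr i)), h.l0, h.rR, e0, e0, add_zero, add_zero, ← Finset.sum_add_distrib,
      Finset.mul_sum, Finset.mul_sum, ← Finset.sum_add_distrib]
    refine Finset.sum_congr rfl (fun i hi => ?_)
    have hi' := Finset.mem_range.1 hi
    have h1 := h.sD_right i hi'
    have h2 := h.sD_left i hi'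
    linarith
  rw [e1] at key
  exact key

end Pool.Agent.S3.G
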