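import Pool.Agent.H63.GV.TLim
import Pool.Agent.S3.G.Slot
import Pool.Agent.S3.HeLog

/-!
# Stage 3: an end with two half twists

At the critical point the slot of an end with two half twists can be replaced by the closed form.
The point is parametrised by `p` (`= ql` or `qr`), `0 < re p`, `0 < im p < π / 2`:
`v = 1/2 + i p / (2 π)`, `exp (2 π i y) = -1 / (2 cosh p - 1)`.
-/

namespace Pool.Agent.S3.G

open Complex Pool.Agent.H63.VC3 Pool.Agent.H63.VC5 Pool.Agent.H63.GV Filter Topology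
open scoped ComplexConjugate

/-- The domain of the parameter. -/
def SS : Set ℂ := {p | 0 < p.re} ∩ ({p | 0 < p.im} ∩ {p | p.im < Real.pi / 2})

theorem SS_open : IsOpen SS :=
  (isOpen_lt continuous_const Complex.continuous_re).inter
    ((isOpen_lt continuous_const Complex.continuous_im).inter
      (isOpen_lt Complex.continuous_im continuous_const))

theorem SS_convex : Convex ℝ SS :=
  (convex_halfSpace_re_gt 0).inter ((convex_halfSpace_im_gt 0).inter (convex_halfSpace_im_lt _))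

/-- `log (2 sinh (p/2))`. -/
noncomputable def cla (p : ℂ) : ℂ := log (2 * sinh (p / 2))

/-- `log (2 cosh p - 1)`. -/
noncomputable def cL (p : ℂ) : ℂ := log (2 * cosh p - 1)

/-- The vertex variable. -/
noncomputable def cv (p : ℂ) : ℂ := 1 / 2 + I * p / (2 * Real.pi)

/-- The edge variable. -/
noncomputable def cy (p : ℂ) : ℂ := 1 / 2 - cL p / (2 * Real.pi * I)

theorem sinh_half_pos {p : ℂ} (hp : p ∈ SS) :
    0 < (2 * sinh (p / 2)).re ∧ 0 < (2 * sinh (p / 2)).im := by
  obtain ⟨h1, h2, h3⟩ := hp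
  have h1' : 0 < p.re := h1
  have h2' : 0 < p.im := h2
  have h3' : p.im < Real.pi / 2 := h3
  have hs : sinh (p / 2) = sinh ((p.re / 2 : ℝ) : ℂ) * cos ((p.im / 2 : ℝ) : ℂ) +
      cosh ((p.re / 2 : ℝ) : ℂ) * (sin ((p.im / 2 : ℝ) : ℂ) * I) := by
    conv_lhs => rw [← re_add_im p, show ((p.re : ℂ) + p.im * I) / 2 =
      ((p.re / 2 : ℝ) : ℂ) + ((p.im / 2 : ℝ) : ℂ) * I by push_cast; ring]
    rw [sinh_add, cosh_mul_I, sinh_mul_I]
  have e1 : (2 * sinh (p / 2)).re = 2 * (Real.sinh (p.re / 2) * Real.cos (p.im / 2)) := by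
    rw [hs, ← ofReal_sinh, ← ofReal_cosh, ← ofReal_cos, ← ofReal_sin]
    simp [-ofReal_sinh, -ofReal_cosh, -ofReal_cos, -ofReal_sin]
  have e2 : (2 * sinh (p / 2)).im = 2 * (Real.cosh (p.re / 2) * Real.sin (p.im / 2)) := by
    rw [hs, ← ofReal_sinh, ← ofReal_cosh, ← ofReal_cos, ← ofReal_sin]
    simp [-ofReal_sinh, -ofReal_cosh, -ofReal_cos, -ofReal_sin]
  have k1 : 0 < Real.sinh (p.re / 2) := Real.sinh_pos_iff.2 (by linarith)
  have k2 := Real.cosh_pos (p.re / 2)
  have k3 : 0 < Real.cos (p.im / 2) :=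
    Real.cos_pos_of_mem_Ioo ⟨by linarith [Real.pi_pos], by linarith [Real.pi_pos]⟩
  have k4 : 0 < Real.sin (p.im / 2) :=
    Real.sin_pos_of_pos_of_lt_pi (by linarith) (by linarith [Real.pi_pos])
  rw [e1, e2]
  exact ⟨by positivity, by positivity⟩

theorem cosh_im_pos {p : ℂ} (hp : p ∈ SS) : 0 < (2 * cosh p - 1).im := by
  obtain ⟨h1, h2, h3⟩ := hp
  have h1' : 0 < p.re := h1
  have h2' : 0 < p.im := h2
  have h3' : p.im < Real.pi / 2 := h3
  have hs : cosh p = cosh (p.re : ℂ) * cos (p.im : ℂ) + sinh (p.re : ℂ) * (sin (p.im : ℂ) * I) := by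
    conv_lhs => rw [← re_add_im p]
    rw [cosh_add, cosh_mul_I, sinh_mul_I]
  have e2 : (2 * cosh p - 1).im = 2 * (Real.sinh p.re * Real.sin p.im) := by
    rw [hs, ← ofReal_sinh, ← ofReal_cosh, ← ofReal_cos, ← ofReal_sin]
    simp [-ofReal_sinh, -ofReal_cosh, -ofReal_cos, -ofReal_sin]
  have k1 : 0 < Real.sinh p.re := Real.sinh_pos_iff.2 h1'
  have k4 : 0 < Real.sin p.im :=
    Real.sin_pos_of_pos_of_lt_pi h2' (by linarith [Real.pi_pos])
  rw [e2]
  positivity

theorem arg_quad {z : ℂ} (h1 : 0 < z.re) (h2 : 0 < z.im) : 0 < z.arg ∧ z.arg < Real.pi / 2 := by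
  refine ⟨?_, ?_⟩
  · have h3 := Complex.arg_nonneg_iff.2 h2.le
    rcases h3.eq_or_lt with h4 | h4
    · exact absurd (Complex.arg_eq_zero_iff.1 h4.symm).2 h2.ne'
    · exact h4
  · exact (abs_lt.1 (Complex.abs_arg_lt_pi_div_two_iff.2 (Or.inl h1))).2

theorem arg_up {z : ℂ} (h2 : 0 < z.im) : 0 < z.arg ∧ z.arg < Real.pi := by
  refine ⟨?_, ?_⟩
  · have h3 := Complex.arg_nonneg_iff.2 h2.le
    rcases h3.eq_or_lt with h4 | h4
    · exact absurd (Complex.arg_eq_zero_iff.1 h4.symm).2 h2.ne'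
    · exact h4
  · refine lt_of_le_of_ne (Complex.arg_le_pi z) (fun h => ?_)
    exact h2.ne' (Complex.arg_eq_pi_iff.1 h).2

theorem cla_im {p : ℂ} (hp : p ∈ SS) : 0 < (cla p).im ∧ (cla p).im < Real.pi / 2 := by
  obtain ⟨h1, h2⟩ := sinh_half_pos hp
  unfold cla
  rw [Complex.log_im]
  exact arg_quad h1 h2

theorem cL_im {p : ℂ} (hp : p ∈ SS) : 0 < (cL p).im ∧ (cL p).im < Real.pi := by
  unfold cL
  rw [Complex.log_im]
  exact arg_up (cosh_im_pos hp)

theorem cla_exp {p : ℂ} (hp : p ∈ SS) : exp (cla p) = 2 * sinh (p / 2) := by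
  refine Complex.exp_log (fun h => ?_)
  have := (sinh_half_pos hp).1
  rw [h] at this
  simp at this

theorem cL_exp {p : ℂ} (hp : p ∈ SS) : exp (cL p) = 2 * cosh p - 1 := by
  refine Complex.exp_log (fun h => ?_)
  have := cosh_im_pos hp
  rw [h] at this
  simp at this

theorem pi_ne : (Real.pi : ℂ) ≠ 0 := Complex.ofReal_ne_zero.2 Real.pi_pos.ne'

theorem cy_mul (p : ℂ) : 2 * Real.pi * I * cy p = Real.pi * I - cL p := by
  have h0 : (2 * Real.pi * I : ℂ) ≠ 0 := Complex.two_pi_I_ne_zero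
  unfold cy
  rw [mul_sub, mul_div_cancel₀ _ h0]
  ring

theorem cv_mul (p : ℂ) : 2 * Real.pi * I * cv p = Real.pi * I - p := by
  have h0 := pi_ne
  unfold cv
  field_simp
  linear_combination p * I_sq

theorem cy_re {p : ℂ} (hp : p ∈ SS) : 0 < (cy p).re ∧ (cy p).re < 1 / 2 := by
  have h1 := congrArg Complex.im (cy_mul p)
  have e1 : (2 * Real.pi * I * cy p : ℂ).im = 2 * Real.pi * (cy p).re := by
    have : (2 * Real.pi * I * cy p : ℂ) = ((2 * Real.pi : ℝ) : ℂ) * (I * cy p) := by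
      push_cast
      ring
    rw [this, Complex.im_ofReal_mul, Complex.I_mul_im]
  have e2 : (Real.pi * I - cL p : ℂ).im = Real.pi - (cL p).im := by
    rw [Complex.sub_im, Complex.im_ofReal_mul, Complex.I_im, mul_one]
  rw [e1, e2] at h1
  obtain ⟨h2, h3⟩ := cL_im hp
  have hpi := Real.pi_pos
  constructor
  · by_contra hcon
    push Not at hcon
    nlinarith
  · by_contra hcon
    push Not at hcon
    nlinarith

theorem cv_re {p : ℂ} (hp : p ∈ SS) : 1 / 4 < (cv p).re ∧ (cv p).re < 1 / 2 := by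
  have h1 := congrArg Complex.im (cv_mul p)
  have e1 : (2 * Real.pi * I * cv p : ℂ).im = 2 * Real.pi * (cv p).re := by
    have : (2 * Real.pi * I * cv p : ℂ) = ((2 * Real.pi : ℝ) : ℂ) * (I * cv p) := by
      push_cast
      ring
    rw [this, Complex.im_ofReal_mul, Complex.I_mul_im]
  have e2 : (Real.pi * I - p : ℂ).im = Real.pi - p.im := by
    rw [Complex.sub_im, Complex.im_ofReal_mul, Complex.I_im, mul_one]
  rw [e1, e2] at h1
  obtain ⟨-, h2, h3⟩ := hp
  have h2' : 0 < p.im := h2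
  have h3' : p.im < Real.pi / 2 := h3
  have hpi := Real.pi_pos
  constructor
  · by_contra hcon
    push Not at hcon
    nlinarith
  · by_contra hcon
    push Not at hcon
    nlinarith

theorem exp_cy {p : ℂ} (hp : p ∈ SS) : exp (2 * Real.pi * I * cy p) = -(2 * cosh p - 1)⁻¹ := by
  rw [cy_mul, Complex.exp_sub, Complex.exp_pi_mul_I, cL_exp hp, neg_div, one_div]

theorem exp_cv (p : ℂ) : exp (2 * Real.pi * I * cv p) = -exp (-p) := by
  rw [cv_mul, sub_eq_add_neg, Complex.exp_add, Complex.exp_pi_mul_I]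
  ring

theorem exp_sym (p : ℂ) : 2 * cosh p - 1 = exp p - 1 + exp (-p) := by
  rw [Complex.cosh]
  ring

/-- `1 - exp (-2 π i (y - v)) = exp (λ - 3p/2)`. -/
theorem one_sub_a {p : ℂ} (hp : p ∈ SS) :
    1 - exp (-(2 * Real.pi * I * (cy p - cv p))) = exp (cla p - 3 * p / 2) := by
  have e1 : -(2 * Real.pi * I * (cy p - cv p)) = cL p - p := by
    have h1 := cy_mul p
    have h2 := cv_mul p
    linear_combination h2 - h1
  have e2 : exp (cla p - 3 * p / 2) = exp (cla p) * exp (-(p / 2)) * exp (-p) := by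
    rw [← Complex.exp_add, ← Complex.exp_add]
    congr 1
    ring
  have e3 : exp (-(p / 2)) * exp (p / 2) = 1 := by
    rw [← Complex.exp_add, neg_add_cancel, Complex.exp_zero]
  have e4 : exp (-(p / 2)) * exp (-(p / 2)) = exp (-p) := by
    rw [← Complex.exp_add]
    congr 1
    ring
  have e5 : exp (-p) * exp p = 1 := by
    rw [← Complex.exp_add, neg_add_cancel, Complex.exp_zero]
  rw [e1, Complex.exp_sub, cL_exp hp, e2, cla_exp hp, exp_sym, Complex.sinh, div_eq_mul_inv,
    ← Complex.exp_neg]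
  linear_combination -e5 - exp (-p) * e3 + exp (-p) * e4

/-- `1 - exp (2 π i (y + v)) = exp (λ + p/2 - L)`. -/
theorem one_sub_b {p : ℂ} (hp : p ∈ SS) :
    1 - exp (2 * Real.pi * I * (cy p + cv p)) = exp (cla p + p / 2 - cL p) := by
  have n1 : 2 * cosh p - 1 ≠ 0 := by
    rw [← cL_exp hp]
    exact Complex.exp_ne_zero _
  have e1 : exp (2 * Real.pi * I * (cy p + cv p)) = exp (-p) * (2 * cosh p - 1)⁻¹ := by
    rw [mul_add, Complex.exp_add, exp_cy hp, exp_cv]
    ring
  have e3 : exp (p / 2) * exp (p / 2) = exp p := by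
    rw [← Complex.exp_add]
    congr 1
    ring
  have e4 : exp (-(p / 2)) * exp (p / 2) = 1 := by
    rw [← Complex.exp_add, neg_add_cancel, Complex.exp_zero]
  rw [e1, Complex.exp_sub, Complex.exp_add, cla_exp hp, cL_exp hp, eq_div_iff n1, sub_mul,
    one_mul, inv_mul_cancel_right₀ n1, exp_sym, Complex.sinh]
  linear_combination -e3 + e4

/-- `1 + exp (2 π i y) = exp (2 λ - L)`. -/
theorem one_sub_c {p : ℂ} (hp : p ∈ SS) :
    1 - exp (2 * Real.pi * I * (cy p + 1 / 2)) = exp (2 * cla p - cL p) := by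
  have n1 : 2 * cosh p - 1 ≠ 0 := by
    rw [← cL_exp hp]
    exact Complex.exp_ne_zero _
  have e1 : exp (2 * Real.pi * I * (cy p + 1 / 2)) = (2 * cosh p - 1)⁻¹ := by
    rw [mul_add, Complex.exp_add, exp_cy hp, show (2 * Real.pi * I * (1 / 2) : ℂ) = Real.pi * I by
      ring, Complex.exp_pi_mul_I]
    ring
  have e2 : exp (2 * cla p) = exp (cla p) * exp (cla p) := by
    rw [← Complex.exp_add]
    congr 1
    ring
  have e3 : exp (p / 2) * exp (p / 2) = exp p := by
    rw [← Complex.exp_add]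
    congr 1
    ring
  have e4 : exp (-(p / 2)) * exp (p / 2) = 1 := by
    rw [← Complex.exp_add, neg_add_cancel, Complex.exp_zero]
  have e5 : exp (-(p / 2)) * exp (-(p / 2)) = exp (-p) := by
    rw [← Complex.exp_add]
    congr 1
    ring
  rw [e1, Complex.exp_sub, e2, cla_exp hp, cL_exp hp, eq_div_iff n1, sub_mul, one_mul,
    inv_mul_cancel₀ n1, exp_sym, Complex.sinh]
  linear_combination -e3 + 2 * e4 - e5

theorem norm_quad_lt (P : ℂ) (h0 : P ≠ 0) (h1 : ‖P‖ < 1) (h2 : 0 ≤ P.re) :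
    ‖1 - P + P ^ 2‖ < 1 := by
  have hs : P.re * P.re + P.im * P.im < 1 := by
    rw [← Complex.normSq_apply, Complex.normSq_eq_norm_sq]
    nlinarith [norm_nonneg P]
  have hs0 : 0 < P.re * P.re + P.im * P.im := by
    rw [← Complex.normSq_apply]
    exact Complex.normSq_pos.2 h0
  have e1 : ‖1 - P + P ^ 2‖ ^ 2 = 1 - (P.re * P.re + P.im * P.im) *
      (1 - (P.re * P.re + P.im * P.im)) -
      2 * P.re * (1 + (P.re * P.re + P.im * P.im) - 2 * P.re) := by
    rw [← Complex.normSq_eq_norm_sq, Complex.normSq_apply]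
    simp only [pow_two, Complex.add_re, Complex.sub_re, Complex.one_re, Complex.mul_re,
      Complex.add_im, Complex.sub_im, Complex.one_im, Complex.mul_im]
    ring
  have e2 : 0 ≤ 1 + (P.re * P.re + P.im * P.im) - 2 * P.re := by
    nlinarith [mul_self_nonneg (1 - P.re), mul_self_nonneg P.im]
  have e3 : 0 ≤ 2 * P.re * (1 + (P.re * P.re + P.im * P.im) - 2 * P.re) := by positivity
  have e4 : 0 < (P.re * P.re + P.im * P.im) * (1 - (P.re * P.re + P.im * P.im)) :=
    mul_pos hs0 (by linarith)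
  nlinarith [norm_nonneg (1 - P + P ^ 2)]

/-- `im (y - v) < 0`. -/
theorem ym_im {p : ℂ} (hp : p ∈ SS) : (cy p - cv p).im < 0 := by
  have h1 := cy_mul p
  have h2 := cv_mul p
  have e1 : -(2 * Real.pi * I * (cy p - cv p)) = cL p - p := by linear_combination h2 - h1
  have e5 : exp (-p) * exp p = 1 := by
    rw [← Complex.exp_add, neg_add_cancel, Complex.exp_zero]
  have e2 : exp (-(2 * Real.pi * I * (cy p - cv p))) = 1 - exp (-p) + exp (-p) ^ 2 := by
    rw [e1, Complex.exp_sub, cL_exp hp, exp_sym, div_eq_mul_inv, ← Complex.exp_neg]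
    linear_combination e5
  obtain ⟨h3, h4, h5⟩ := hp
  have h3' : 0 < p.re := h3
  have h4' : 0 < p.im := h4
  have h5' : p.im < Real.pi / 2 := h5
  have e3 : ‖exp (-p)‖ < 1 := by
    rw [Complex.norm_exp, Complex.neg_re, Real.exp_lt_one_iff]
    linarith
  have e4 : 0 ≤ (exp (-p)).re := by
    rw [Complex.exp_re, Complex.neg_im, Real.cos_neg]
    have : 0 < Real.cos p.im :=
      Real.cos_pos_of_mem_Ioo ⟨by linarith [Real.pi_pos], by linarith⟩
    positivity
  have e6 := norm_quad_lt _ (Complex.exp_ne_zero (-p)) e3 e4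
  rw [← e2, Complex.norm_exp, Real.exp_lt_one_iff] at e6
  have e7 : (-(2 * Real.pi * I * (cy p - cv p)) : ℂ).re = 2 * Real.pi * (cy p - cv p).im := by
    have : (-(2 * Real.pi * I * (cy p - cv p)) : ℂ) =
        ((2 * Real.pi : ℝ) : ℂ) * (-(I * (cy p - cv p))) := by
      push_cast
      ring
    rw [this, Complex.re_ofReal_mul, Complex.neg_re, Complex.I_mul_re, neg_neg]
  rw [e7] at e6
  by_contra hcon
  push Not at hcon
  have := mul_nonneg (by positivity : (0 : ℝ) ≤ 2 * Real.pi) hcon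
  linarith

theorem sdom_c {p : ℂ} (hp : p ∈ SS) : sdom (cy p) (.op (cv p)) := by
  obtain ⟨h1, h2⟩ := cy_re hp
  obtain ⟨h3, h4⟩ := cv_re hp
  refine ⟨h1, h2, Or.inl (ym_im hp).ne, Or.inr ⟨?_, ?_⟩⟩
  · rw [Complex.add_re]; linarith
  · rw [Complex.add_re]; linarith

theorem he_a {p : ℂ} (hp : p ∈ SS) :
    he (cy p - cv p) = cla p - 3 * p / 2 + Real.pi * I * (cy p - cv p - 1 / 2) := by
  have h1 := ym_im hp
  obtain ⟨h2, h3⟩ := cla_im hp
  have h4' : 0 < p.im := hp.2.1
  have h5' : p.im < Real.pi / 2 := hp.2.2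
  have e : (cla p - 3 * p / 2).im = (cla p).im - 3 * p.im / 2 := by
    have : (3 * p / 2 : ℂ) = ((3 / 2 : ℝ) : ℂ) * p := by push_cast; ring
    rw [Complex.sub_im, this, Complex.im_ofReal_mul]
    ring
  unfold he
  rw [if_neg (not_lt.2 h1.le), if_pos h1, one_sub_a hp, Complex.log_exp]
  · rw [e]; linarith
  · rw [e]; linarith

theorem he_b {p : ℂ} (hp : p ∈ SS) :
    he (cy p + cv p) = cla p + p / 2 - cL p - Real.pi * I * (cy p + cv p - 1 / 2) := by
  obtain ⟨a1, a2⟩ := cy_re hp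
  obtain ⟨a3, a4⟩ := cv_re hp
  obtain ⟨h2, h3⟩ := cla_im hp
  obtain ⟨h6, h7⟩ := cL_im hp
  have hb := one_sub_b hp
  obtain ⟨-, h4, h5⟩ := hp
  have h4' : 0 < p.im := h4
  have h5' : p.im < Real.pi / 2 := h5
  have r0 : 0 < (cy p + cv p).re := by rw [Complex.add_re]; linarith
  have r1 : (cy p + cv p).re < 1 := by rw [Complex.add_re]; linarith
  have e : (cla p + p / 2 - cL p).im = (cla p).im + p.im / 2 - (cL p).im := by
    have : (p / 2 : ℂ) = ((1 / 2 : ℝ) : ℂ) * p := by push_cast; ring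
    rw [Complex.sub_im, Complex.add_im, this, Complex.im_ofReal_mul]
    ring
  have h := hh_log _ r0 r1
  rw [hb, Complex.log_exp (by rw [e]; linarith) (by rw [e]; linarith)] at h
  rw [he_eq_hh r0 r1]
  linear_combination -h

theorem hh_c {p : ℂ} (hp : p ∈ SS) : hh (cy p + 1 / 2) = 2 * cla p - cL p - Real.pi * I * cy p := by
  obtain ⟨a1, a2⟩ := cy_re hp
  obtain ⟨h2, h3⟩ := cla_im hp
  obtain ⟨h6, h7⟩ := cL_im hp
  have hb := one_sub_c hp
  have c0 : (cy p + 1 / 2).re = (cy p).re + 1 / 2 := by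
    rw [Complex.add_re]
    norm_num
  have e : (2 * cla p - cL p).im = 2 * (cla p).im - (cL p).im := by
    rw [Complex.sub_im]
    simp
  have h := hh_log (cy p + 1 / 2) (by rw [c0]; linarith) (by rw [c0]; linarith)
  rw [hb, Complex.log_exp (by rw [e]; linarith) (by rw [e]; linarith)] at h
  linear_combination -h

/-- The equation of the vertex. -/
theorem E1 {p : ℂ} (hp : p ∈ SS) :
    ev (cy p) (cv p) + 2 * Real.pi * I * (2 * (-1 : ℤ) * cv p + 1) = 0 := by
  unfold ev
  rw [he_a hp, he_b hp]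
  have h1 := cy_mul p
  have h2 := cv_mul p
  push_cast
  linear_combination h1 - 2 * h2

/-- The closed form of the derivative with respect to `y`. -/
theorem E2 {p : ℂ} (hp : p ∈ SS) : ey (cy p) (.op (cv p)) = ey (cy p) (.cl (-1)) := by
  show 2 * hh (cy p + 1 / 2) - he (cy p - cv p) - he (cy p + cv p) =
    hh (cy p + 1 / 2) - Real.pi * I * ((-1 : ℤ) : ℂ) * (1 - cy p)
  rw [he_a hp, he_b hp, hh_c hp]
  have h2 := cv_mul p
  push_cast
  linear_combination h2

theorem cL_hasDerivAt {p : ℂ} (hp : p ∈ SS) :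
    HasDerivAt cL (2 * sinh p / (2 * cosh p - 1)) p := by
  have h1 : HasDerivAt (fun p : ℂ => 2 * cosh p - 1) (2 * sinh p) p :=
    ((Complex.hasDerivAt_cosh p).const_mul 2).sub_const 1
  have h2 : 2 * cosh p - 1 ∈ slitPlane := Or.inr (cosh_im_pos hp).ne'
  exact h1.clog h2

theorem cy_hasDerivAt {p : ℂ} (hp : p ∈ SS) :
    HasDerivAt cy (-(2 * sinh p / (2 * cosh p - 1) / (2 * Real.pi * I))) p := by
  have := ((cL_hasDerivAt hp).div_const (2 * Real.pi * I : ℂ)).const_sub (1 / 2)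
  exact this

theorem cv_hasDerivAt (p : ℂ) : HasDerivAt cv (I / (2 * Real.pi)) p := by
  have := ((((hasDerivAt_id p).const_mul I).div_const (2 * Real.pi : ℂ)).const_add (1 / 2))
  exact HasDerivAt.congr_deriv (f := cv) this (by simp)

/-- The difference of the two forms. -/
noncomputable def cG (p : ℂ) : ℂ :=
  ff (cy p + 1 / 2) - fe (cy p - cv p) - fe (cy p + cv p) -
    Real.pi * I * (cy p - cy p ^ 2 / 2 - 7 / 8) + 2 * Real.pi * I * (-cv p ^ 2 + cv p)

theorem cG_eq (p : ℂ) : sP (cy p) (.op (cv p)) + wr (-1) (cv p) =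
    sP (cy p) (.cl (-1)) + cG p := by
  unfold cG wr
  show 2 * ff (cy p + 1 / 2) - fe (cy p - cv p) - fe (cy p + cv p) +
    2 * Real.pi * I * (((-1 : ℝ) : ℂ) * cv p ^ 2 + cv p) = ff (cy p + 1 / 2) -
      Real.pi * I * ((-1 : ℤ) : ℂ) * (cy p - cy p ^ 2 / 2 - 7 / 8) + _
  push_cast
  ring

theorem cG_hasDerivAt {p : ℂ} (hp : p ∈ SS) : HasDerivAt cG 0 p := by
  obtain ⟨d1, d2, d3, d4⟩ := sdom_c hp
  have h1 := cy_hasDerivAt hp
  have h2 := cv_hasDerivAt p
  have c0 : (cy p + 1 / 2).re = (cy p).re + 1 / 2 := by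
    rw [Complex.add_re]
    norm_num
  have k1 := (ff_hasDerivAt (cy p + 1 / 2) (by rw [c0]; linarith) (by rw [c0]; linarith)).comp p
    (h1.add_const (1 / 2))
  have k2 := (fe_hasDerivAt d3).comp p (h1.sub h2)
  have k3 := (fe_hasDerivAt d4).comp p (h1.add h2)
  have k4 := ((h1.sub ((h1.pow 2).div_const 2)).sub_const (7 / 8)).const_mul (Real.pi * I : ℂ)
  have k5 := ((h2.pow 2).neg.add h2).const_mul (2 * Real.pi * I : ℂ)
  have k6 := (((k1.sub k2).sub k3).sub k4).add k5
  have e1 := E1 hp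
  have e2 : 2 * hh (cy p + 1 / 2) - he (cy p - cv p) - he (cy p + cv p) =
    hh (cy p + 1 / 2) - Real.pi * I * ((-1 : ℤ) : ℂ) * (1 - cy p) := E2 hp
  unfold ev at e1
  push_cast at e1 e2
  refine HasDerivAt.congr_deriv (f := cG) k6 ?_
  simp only [Nat.cast_ofNat, Nat.add_one_sub_one, pow_one]
  generalize -(2 * sinh p / (2 * cosh p - 1) / (2 * Real.pi * I)) = dy at *
  generalize I / (2 * Real.pi) = dv at *
  linear_combination dy * e2 + dv * e1

theorem fe_lim_zero : Tendsto fe (𝓝[{z | z.im < 0}] 0) (𝓝 0) := by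
  have h1 : Tendsto (fun z : ℂ => exp (-(2 * Real.pi * I * z))) (𝓝[{z | z.im < 0}] 0)
      (𝓝[{z | 1 - z ∈ slitPlane}] 1) := by
    refine tendsto_nhdsWithin_iff.2 ⟨?_, ?_⟩
    · have h2 : Continuous fun z : ℂ => exp (-(2 * Real.pi * I * z)) := by fun_prop
      have h3 := h2.tendsto 0
      simp only [mul_zero, neg_zero, Complex.exp_zero] at h3
      exact h3.mono_left nhdsWithin_le_nhds
    · filter_upwards [self_mem_nhdsWithin] with z hz
      have h4 := norm_exp_lt' hz
      refine Or.inl ?_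
      have h5 := Complex.re_le_norm (exp (-(2 * Real.pi * I * z)))
      rw [Complex.sub_re, Complex.one_re]
      linarith
  have h4 := dilog_lim_one.comp h1
  have h5 : Tendsto (fun z : ℂ => (Real.pi : ℂ) ^ 2 * (z ^ 2 - z + 1 / 6))
      (𝓝[{z : ℂ | z.im < 0}] 0) (𝓝 ((Real.pi : ℂ) ^ 2 / 6)) := by
    have h2 : Continuous fun z : ℂ => (Real.pi : ℂ) ^ 2 * (z ^ 2 - z + 1 / 6) := by fun_prop
    have h3 := h2.tendsto 0
    have e : (Real.pi : ℂ) ^ 2 * ((0 : ℂ) ^ 2 - 0 + 1 / 6) = (Real.pi : ℂ) ^ 2 / 6 := by ring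
    rw [e] at h3
    exact h3.mono_left nhdsWithin_le_nhds
  have h6 := (h4.neg.add h5).div_const (-(2 * Real.pi * I : ℂ))
  rw [neg_add_cancel, zero_div] at h6
  refine h6.congr' ?_
  filter_upwards [self_mem_nhdsWithin] with z hz
  have hz' : z.im < 0 := hz
  unfold fe
  rw [if_neg (not_lt.2 hz'.le), if_pos hz']
  rfl

theorem cL_lim : Tendsto cL (𝓝 0) (𝓝 0) := by
  have h1 : Tendsto (fun p : ℂ => 2 * cosh p - 1) (𝓝 0) (𝓝 1) := by
    have h2 : Continuous fun p : ℂ => 2 * cosh p - 1 := by fun_prop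
    have h3 := h2.tendsto 0
    rw [Complex.cosh_zero] at h3
    norm_num at h3
    exact h3
  have h2 := (continuousAt_clog (Complex.one_mem_slitPlane)).tendsto.comp h1
  rw [Complex.log_one] at h2
  exact h2

theorem cy_lim : Tendsto cy (𝓝 0) (𝓝 (1 / 2)) := by
  have h := (cL_lim.div_const (2 * Real.pi * I : ℂ)).const_sub (1 / 2 : ℂ)
  rw [zero_div, sub_zero] at h
  exact h

theorem cv_lim : Tendsto cv (𝓝 0) (𝓝 (1 / 2)) := by
  have h2 : Continuous cv := by
    unfold cv
    fun_prop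
  have h3 := h2.tendsto 0
  have e : cv 0 = 1 / 2 := by
    unfold cv
    simp
  rwa [e] at h3

theorem cG_lim : Tendsto cG (𝓝[SS] 0) (𝓝 (Real.pi * I)) := by
  have hy : Tendsto cy (𝓝[SS] 0) (𝓝 (1 / 2)) := cy_lim.mono_left nhdsWithin_le_nhds
  have hv : Tendsto cv (𝓝[SS] 0) (𝓝 (1 / 2)) := cv_lim.mono_left nhdsWithin_le_nhds
  have h1 : Tendsto (fun p => ff (cy p + 1 / 2)) (𝓝[SS] 0) (𝓝 0) := by
    refine ff_lim_one.comp (tendsto_nhdsWithin_iff.2 ⟨?_, ?_⟩)
    · have := hy.add_const (1 / 2 : ℂ)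
      rwa [show (1 / 2 + 1 / 2 : ℂ) = 1 by norm_num] at this
    · filter_upwards [self_mem_nhdsWithin] with p hp
      obtain ⟨a1, a2⟩ := cy_re hp
      have c0 : (cy p + 1 / 2).re = (cy p).re + 1 / 2 := by
        rw [Complex.add_re]
        norm_num
      exact ⟨by rw [c0]; linarith, by rw [c0]; linarith⟩
  have h2 : Tendsto (fun p => fe (cy p + cv p)) (𝓝[SS] 0) (𝓝 0) := by
    have h3 : Tendsto (fun p => ff (cy p + cv p)) (𝓝[SS] 0) (𝓝 0) := by
      refine ff_lim_one.comp (tendsto_nhdsWithin_iff.2 ⟨?_, ?_⟩)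
      · have := hy.add hv
        rwa [show (1 / 2 + 1 / 2 : ℂ) = 1 by norm_num] at this
      · filter_upwards [self_mem_nhdsWithin] with p hp
        obtain ⟨a1, a2⟩ := cy_re hp
        obtain ⟨a3, a4⟩ := cv_re hp
        exact ⟨by rw [Complex.add_re]; linarith, by rw [Complex.add_re]; linarith⟩
    refine h3.congr' ?_
    filter_upwards [self_mem_nhdsWithin] with p hp
    obtain ⟨a1, a2⟩ := cy_re hp
    obtain ⟨a3, a4⟩ := cv_re hp
    exact (fe_eq_ff (by rw [Complex.add_re]; linarith) (by rw [Complex.add_re]; linarith)).symm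
  have h3 : Tendsto (fun p => fe (cy p - cv p)) (𝓝[SS] 0) (𝓝 0) := by
    refine fe_lim_zero.comp (tendsto_nhdsWithin_iff.2 ⟨?_, ?_⟩)
    · have := hy.sub hv
      rwa [sub_self] at this
    · filter_upwards [self_mem_nhdsWithin] with p hp
      exact ym_im hp
  have h4 := (((h1.sub h3).sub h2).sub (((hy.sub ((hy.pow 2).div_const 2)).sub_const
    (7 / 8)).const_mul (Real.pi * I : ℂ))).add
      (((hv.pow 2).neg.add hv).const_mul (2 * Real.pi * I : ℂ))
  have e : (0 - 0 - 0 - Real.pi * I * (1 / 2 - (1 / 2) ^ 2 / 2 - 7 / 8) +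
      2 * Real.pi * I * (-(1 / 2) ^ 2 + 1 / 2) : ℂ) = Real.pi * I := by ring
  rw [e] at h4
  exact h4

instance SS_neBot : (𝓝[SS] (0 : ℂ)).NeBot := by
  rw [← mem_closure_iff_nhdsWithin_neBot, Metric.mem_closure_iff]
  intro ε hε
  obtain ⟨t, ht0, ht1, ht2⟩ : ∃ t : ℝ, 0 < t ∧ t < 1 ∧ 2 * t < ε :=
    ⟨min (1 / 2) (ε / 4), by positivity, by
      have := min_le_left (1 / 2 : ℝ) (ε / 4)
      linarith, by
      have := min_le_right (1 / 2 : ℝ) (ε / 4)
      linarith⟩
  refine ⟨(t : ℂ) + t * I, ⟨?_, ?_, ?_⟩, ?_⟩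
  · show 0 < ((t : ℂ) + t * I).re
    simpa using ht0
  · show 0 < ((t : ℂ) + t * I).im
    simpa using ht0
  · show ((t : ℂ) + t * I).im < Real.pi / 2
    have : ((t : ℂ) + t * I).im = t := by simp
    rw [this]
    linarith [Real.pi_gt_three]
  · rw [dist_comm, dist_zero_right]
    have h1 : ‖(t : ℂ) + t * I‖ ≤ t + t := by
      refine (norm_add_le _ _).trans ?_
      rw [norm_mul, Complex.norm_I, mul_one, Complex.norm_real, Real.norm_of_nonneg ht0.le]
    linarith

theorem cG_const {p : ℂ} (hp : p ∈ SS) : cG p = Real.pi * I := by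
  have h1 : ∀ q ∈ SS, cG q = cG p := by
    intro q hq
    apply SS_convex.is_const_of_fderivWithin_eq_zero (𝕜 := ℂ) (f := cG) (s := SS)
    · intro x hx
      exact (cG_hasDerivAt hx).differentiableAt.differentiableWithinAt
    · intro x hx
      rw [fderivWithin_of_isOpen SS_open hx]
      ext
      simpa using (cG_hasDerivAt hx).deriv
    · exact hq
    · exact hp
  have h2 : Tendsto cG (𝓝[SS] 0) (𝓝 (cG p)) := by
    refine tendsto_const_nhds.congr' ?_
    filter_upwards [self_mem_nhdsWithin] with q hq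
    exact (h1 q hq).symm
  exact tendsto_nhds_unique h2 cG_lim

/-- The closed form of an end with two half twists. -/
theorem E3 {p : ℂ} (hp : p ∈ SS) : sP (cy p) (.op (cv p)) + wr (-1) (cv p) =
    sP (cy p) (.cl (-1)) + Real.pi * I := by
  rw [cG_eq, cG_const hp]

/-! ### Complex conjugation -/

theorem dilog_conj (w : ℂ) (h : ‖w‖ < 1) : dilog (conj w) = conj (dilog w) := by
  unfold dilog
  rw [map_neg, ← intervalIntegral.intervalIntegral_conj]
  congr 1
  refine intervalIntegral.integral_congr (fun t ht => ?_)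
  rw [Set.uIcc_of_le zero_le_one] at ht
  show Complex.log (1 - (t : ℂ) * conj w) / (t : ℂ) = conj (Complex.log (1 - t * w) / t)
  have h1 : ‖(t : ℂ) * w‖ < 1 := by
    rw [norm_mul, Complex.norm_real, Real.norm_of_nonneg ht.1]
    nlinarith [norm_nonneg w, ht.1, ht.2]
  have h2 : 0 < (1 - (t : ℂ) * w).re := by
    have := Complex.re_le_norm ((t : ℂ) * w)
    rw [Complex.sub_re, Complex.one_re]
    linarith
  rw [map_div₀, Complex.conj_ofReal, ← Complex.log_conj]
  · rw [map_sub, map_one, map_mul, Complex.conj_ofReal]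
  · exact (Complex.mem_slitPlane_iff_arg.1 (Or.inl h2)).1

theorem fe_conj {z : ℂ} (h : fdom z) : fe (conj z) = conj (fe z) := by
  have key : ∀ w : ℂ, 0 < w.im → fe (conj w) = conj (fe w) := by
    intro w hw
    have h' : ¬ 0 < (conj w).im := by rw [conj_im]; linarith
    have h'' : (conj w).im < 0 := by rw [conj_im]; linarith
    have e1 : exp (-(2 * Real.pi * I * conj w)) = conj (exp (2 * Real.pi * I * w)) := by
      rw [← exp_conj]
      congr 1
      simp only [map_mul, conj_I, conj_ofReal, Complex.conj_ofNat]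
      ring
    unfold fe
    rw [if_neg h', if_pos h'', if_pos hw, e1, dilog_conj _ (norm_exp_lt hw)]
    simp only [map_div₀, map_add, map_neg, map_mul, map_sub, map_pow, conj_I, conj_ofReal,
      Complex.conj_ofNat, map_one]
    ring
  rcases lt_trichotomy z.im 0 with hz | hz | hz
  · have h1 := key (conj z) (by rw [conj_im]; linarith)
    rw [conj_conj] at h1
    rw [h1, conj_conj]
  · have h1 : 0 < z.re ∧ z.re < 1 := by
      rcases h with h | h
      · exact absurd hz h
      · exact h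
    rw [fe_eq_ff h1.1 h1.2, fe_eq_ff (by rw [conj_re]; exact h1.1) (by rw [conj_re]; exact h1.2),
      ff_conj]
  · exact key z hz

theorem he_conj' {z : ℂ} (h : fdom z) : he (conj z) = conj (he z) := by
  rcases lt_trichotomy z.im 0 with hz | hz | hz
  · have h1 := he_conj (z := conj z) (by rw [conj_im]; linarith)
    rw [conj_conj] at h1
    rw [h1, conj_conj]
  · have h1 : 0 < z.re ∧ z.re < 1 := by
      rcases h with h | h
      · exact absurd hz h
      · exact h
    rw [he_eq_hh h1.1 h1.2, he_eq_hh (by rw [conj_re]; exact h1.1) (by rw [conj_re]; exact h1.2),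
      hh_conj _ h1.1 h1.2]
  · exact he_conj hz

theorem sdom_conj {y v : ℂ} (h : sdom y (.op v)) : sdom (conj y) (.op (-conj v)) := by
  obtain ⟨h1, h2, h3, h4⟩ := h
  have e1 : conj y - -conj v = conj (y + v) := by rw [map_add]; ring
  have e2 : conj y + -conj v = conj (y - v) := by rw [map_sub]; ring
  have k : ∀ z : ℂ, fdom z → fdom (conj z) := by
    intro z hz
    rcases hz with hz | hz
    · exact Or.inl (by rw [conj_im]; exact neg_ne_zero.2 hz)
    · exact Or.inr (by rw [conj_re]; exact hz)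
  refine ⟨by rw [conj_re]; exact h1, by rw [conj_re]; exact h2, ?_, ?_⟩
  · rw [e1]; exact k _ h4
  · rw [e2]; exact k _ h3

theorem ev_conj {y v : ℂ} (h : sdom y (.op v)) : ev (conj y) (-conj v) = -conj (ev y v) := by
  obtain ⟨h1, h2, h3, h4⟩ := h
  have e1 : conj y - -conj v = conj (y + v) := by rw [map_add]; ring
  have e2 : conj y + -conj v = conj (y - v) := by rw [map_sub]; ring
  unfold ev
  rw [e1, e2, he_conj' h3, he_conj' h4, map_sub]
  ring

theorem half_conj (y : ℂ) : conj y + 1 / 2 = conj (y + 1 / 2) := by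
  rw [map_add, map_div₀, map_one, map_ofNat]

theorem ey_conj {y v : ℂ} (h : sdom y (.op v)) :
    ey (conj y) (.op (-conj v)) = conj (ey y (.op v)) := by
  obtain ⟨h1, h2, h3, h4⟩ := h
  have e1 : conj y - -conj v = conj (y + v) := by rw [map_add]; ring
  have e2 : conj y + -conj v = conj (y - v) := by rw [map_sub]; ring
  have c0 : (y + 1 / 2).re = y.re + 1 / 2 := by
    rw [Complex.add_re]
    norm_num
  show 2 * hh (conj y + 1 / 2) - he (conj y - -conj v) - he (conj y + -conj v) =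
    conj (2 * hh (y + 1 / 2) - he (y - v) - he (y + v))
  rw [e1, e2, he_conj' h3, he_conj' h4, half_conj, hh_conj _ (by rw [c0]; linarith)
    (by rw [c0]; linarith), map_sub, map_sub, map_mul, Complex.conj_ofNat]
  ring

theorem ey_conj_cl {y : ℂ} (s : ℤ) (h1 : 0 < y.re) (h2 : y.re < 1 / 2) :
    ey (conj y) (.cl (-s)) = conj (ey y (.cl s)) := by
  have c0 : (y + 1 / 2).re = y.re + 1 / 2 := by
    rw [Complex.add_re]
    norm_num
  show hh (conj y + 1 / 2) - Real.pi * I * ((-s : ℤ) : ℂ) * (1 - conj y) =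
    conj (hh (y + 1 / 2) - Real.pi * I * s * (1 - y))
  rw [half_conj, hh_conj _ (by rw [c0]; linarith) (by rw [c0]; linarith)]
  simp only [map_sub, map_mul, conj_I, conj_ofReal, map_one, map_intCast]
  push_cast
  ring

theorem sP_conj {y v : ℂ} (h : sdom y (.op v)) :
    sP (conj y) (.op (-conj v)) = conj (sP y (.op v)) := by
  obtain ⟨h1, h2, h3, h4⟩ := h
  have e1 : conj y - -conj v = conj (y + v) := by rw [map_add]; ring
  have e2 : conj y + -conj v = conj (y - v) := by rw [map_sub]; ring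
  show 2 * ff (conj y + 1 / 2) - fe (conj y - -conj v) - fe (conj y + -conj v) =
    conj (2 * ff (y + 1 / 2) - fe (y - v) - fe (y + v))
  rw [e1, e2, fe_conj h3, fe_conj h4, half_conj, ff_conj, map_sub, map_sub, map_mul,
    Complex.conj_ofNat]
  ring

theorem sP_conj_cl (y : ℂ) (s : ℤ) : sP (conj y) (.cl (-s)) = conj (sP y (.cl s)) := by
  show ff (conj y + 1 / 2) - Real.pi * I * ((-s : ℤ) : ℂ) * (conj y - conj y ^ 2 / 2 - 7 / 8) =
    conj (ff (y + 1 / 2) - Real.pi * I * s * (y - y ^ 2 / 2 - 7 / 8))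
  rw [half_conj, ff_conj]
  simp only [map_sub, map_mul, conj_I, conj_ofReal, map_intCast, map_div₀, map_pow,
    Complex.conj_ofNat]
  push_cast
  ring

theorem wr_conj (r : ℝ) (v : ℂ) : wr (-r) (-conj v) = conj (wr r v) := by
  unfold wr
  simp only [map_mul, map_add, conj_I, conj_ofReal, map_pow, Complex.conj_ofNat]
  push_cast
  ring

/-! ### The statements for an end -/

theorem y_unique {y y' : ℂ} (h0 : 0 < y.re) (h1 : y.re < 1 / 2) (h0' : 0 < y'.re)
    (h1' : y'.re < 1 / 2) (h : exp (2 * Real.pi * I * y) = exp (2 * Real.pi * I * y')) :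
    y = y' := by
  obtain ⟨n, hn⟩ := Complex.exp_eq_exp_iff_exists_int.1 h
  have h2 : y = y' + n := by
    have h3 : (2 * Real.pi * I : ℂ) * (y - (y' + n)) = 0 := by linear_combination hn
    rcases mul_eq_zero.1 h3 with h4 | h4
    · exact absurd h4 Complex.two_pi_I_ne_zero
    · linear_combination h4
  have h3 : y.re = y'.re + n := by
    rw [h2, Complex.add_re, Complex.intCast_re]
  have h4 : (n : ℝ) < 1 := by linarith
  have h5 : (-1 : ℝ) < n := by linarith
  have h6 : n < 1 := by exact_mod_cast h4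
  have h7 : -1 < n := by exact_mod_cast h5
  have h8 : n = 0 := by omega
  rw [h2, h8]
  simp

/-- An end with `c = -2`. -/
theorem end_neg {p y v : ℂ} (hp : p ∈ SS) (hv : v = cv p) (h0 : 0 < y.re) (h1 : y.re < 1 / 2)
    (hy : exp (2 * Real.pi * I * y) = -(2 * cosh p - 1)⁻¹) :
    sdom y (.op v) ∧ ev y v + 2 * Real.pi * I * (2 * (-1 : ℤ) * v + 1) = 0 ∧
      ey y (.op v) = ey y (.cl (-1)) ∧
      sP y (.op v) + wr (-1) v = sP y (.cl (-1)) + Real.pi * I := by
  have h2 : y = cy p := y_unique h0 h1 (cy_re hp).1 (cy_re hp).2 (by rw [hy, exp_cy hp])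
  subst h2 hv
  exact ⟨sdom_c hp, E1 hp, E2 hp, E3 hp⟩

/-- An end with `c = 2`. -/
theorem end_pos {p y v : ℂ} (hp : p ∈ SS) (hv : v = -conj (cv p)) (h0 : 0 < y.re)
    (h1 : y.re < 1 / 2) (hy : exp (2 * Real.pi * I * y) = -(2 * cosh (conj p) - 1)) :
    sdom y (.op v) ∧ ev y v + 2 * Real.pi * I * (2 * (1 : ℤ) * v + 1) = 0 ∧
      ey y (.op v) = ey y (.cl 1) ∧
      sP y (.op v) + wr 1 v = sP y (.cl 1) - Real.pi * I := by
  have hc := cy_re hp
  have hsd := sdom_c hp
  have h2 : y = conj (cy p) := by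
    refine y_unique h0 h1 (by rw [conj_re]; exact hc.1) (by rw [conj_re]; exact hc.2) ?_
    have e : exp (2 * Real.pi * I * conj (cy p)) = (conj (exp (2 * Real.pi * I * cy p)))⁻¹ := by
      rw [← exp_conj, ← Complex.exp_neg]
      congr 1
      simp only [map_mul, conj_I, conj_ofReal, Complex.conj_ofNat]
      ring
    rw [hy, e, exp_cy hp, map_neg, map_inv₀, map_sub, map_mul, map_one, Complex.conj_ofNat,
      ← cosh_conj, inv_neg, inv_inv]
  subst h2 hv
  refine ⟨sdom_conj hsd, ?_, ?_, ?_⟩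
  · have := congrArg conj (E1 hp)
    rw [map_zero, map_add] at this
    rw [ev_conj hsd]
    simp only [map_mul, map_add, conj_I, conj_ofReal, Complex.conj_ofNat, map_one,
      map_intCast] at this
    push_cast at this ⊢
    linear_combination -this
  · rw [ey_conj hsd, E2 hp, ← ey_conj_cl _ hc.1 hc.2, neg_neg]
  · have := congrArg conj (E3 hp)
    rw [map_add, map_add, ← sP_conj hsd, ← wr_conj, ← sP_conj_cl, neg_neg, neg_neg, map_mul,
      conj_I, conj_ofReal] at this
    linear_combination this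

variable {R : ℕ} {a : ℕ → ℕ} {z ql qr : ℕ → ℂ}

theorem closed_Y (z q' κ : ℂ) (hc : cos z ≠ 0) (hs : sin z ≠ 0) (hκ : κ ≠ 0)
    (hsl : sinh q' = κ * tan z) (hU : κ ^ 2 + cos z ^ 2 ≠ 0)
    (h : exp (2 * I * z) = -exp (-q')) : Yy κ (cosh q') = -(2 * cosh q' - 1)⁻¹ := by
  obtain ⟨n1, n2, e1, e2, e3⟩ := slot_alg z q' κ hc hκ hsl hU
  have h1 : exp (-q') * exp q' = 1 := by
    rw [← Complex.exp_add, neg_add_cancel, Complex.exp_zero]
  have h2 : exp q' * exp q' * ((Yy κ (cosh q') - exp (2 * I * z)) * (κ - I * cosh q')) =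
      (Yy κ (cosh q') * exp (2 * I * z) - 1) * (κ - I * cosh q') := by
    rw [e1, e2]
    linear_combination (2 * I * exp (I * z) * cos z * exp q') * h1
  have h3 : exp q' * exp q' * (Yy κ (cosh q') - exp (2 * I * z)) =
      (Yy κ (cosh q') * exp (2 * I * z) - 1) := by
    apply mul_right_cancel₀ n1
    linear_combination h2
  rw [h] at h3
  have h5 : exp q' ≠ -1 := by
    intro h0
    have h6 := one_sub_q z
    have h7 : exp (-q') = -1 := by
      have : exp (-q') * exp q' = 1 := h1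
      rw [h0] at this
      linear_combination -this
    rw [h, h7] at h6
    have h8 : 2 * I * sin z * exp (I * z) = 0 := by linear_combination h6
    exact mul_ne_zero (mul_ne_zero (mul_ne_zero two_ne_zero I_ne_zero) hs)
      (Complex.exp_ne_zero _) h8
  have h6 : (exp q' + 1) * (Yy κ (cosh q') * (exp q' - 1 + exp (-q')) + 1) = 0 := by
    linear_combination h3 + (Yy κ (cosh q') - exp q') * h1
  have h7 : Yy κ (cosh q') * (exp q' - 1 + exp (-q')) + 1 = 0 := by
    rcases mul_eq_zero.1 h6 with h8 | h8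
    · exact absurd (by linear_combination h8) h5
    · exact h8
  rw [← exp_sym] at h7
  have h8 : 2 * cosh q' - 1 ≠ 0 := by
    intro h0
    rw [h0, mul_zero, zero_add] at h7
    exact one_ne_zero h7
  rw [eq_neg_iff_add_eq_zero]
  field_simp
  linear_combination h7

/-- The data of a left end with two half twists. -/
theorem Crt.end_left (h : Crt R a z ql qr) (ha : a 0 = 2) :
    qr 0 ∈ SS ∧ z 0 / Real.pi = cv (qr 0) ∧ Yr z qr 0 = -(2 * cosh (qr 0) - 1)⁻¹ := by
  have hR := h.hR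
  have h1 := h.eq 0 (by omega)
  rw [ha, h.l0, zero_add] at h1
  push_cast at h1
  have hn : conj (cos (z (0 + 1))) ≠ 0 := by
    rw [Ne, map_eq_zero]
    exact cos_ne (h.zre (0 + 1) (by omega))
  refine ⟨⟨h.rre 0 (by omega), (h.rim 0 (by omega)).1, (h.rim 0 (by omega)).2⟩, ?_, ?_⟩
  · have := pi_ne
    unfold cv
    field_simp
    linear_combination h1
  · refine closed_Y _ _ _ (cos_ne (h.zre 0 (by omega))) (sin_ne (h.zre 0 (by omega))) hn
      (h.sr 0 (by omega)) (h.hinge_ne 0 (by omega)).1 ?_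
    have e : 2 * I * z 0 = Real.pi * I + -qr 0 := by
      linear_combination I * h1 + qr 0 * I_sq
    rw [e, Complex.exp_add, Complex.exp_pi_mul_I]
    ring

/-- The data of a right end with two half twists. -/
theorem Crt.end_right (h : Crt R a z ql qr) (i : ℕ) (hi : i + 1 = R) (ha : a (i + 1) = 2) :
    ql (i + 1) ∈ SS ∧ z (i + 1) / Real.pi = cv (ql (i + 1)) ∧
      Yl z ql i = -(2 * cosh (ql (i + 1)) - 1)⁻¹ := by
  have h1 := h.eq (i + 1) (by omega)
  have hr : qr (i + 1) = 0 := by rw [hi]; exact h.rR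
  rw [ha, hr, add_zero] at h1
  push_cast at h1
  have hn : conj (cos (z i)) ≠ 0 := by
    rw [Ne, map_eq_zero]
    exact cos_ne (h.zre i (by omega))
  refine ⟨⟨h.lre i (by omega), (h.lim i (by omega)).1, (h.lim i (by omega)).2⟩, ?_, ?_⟩
  · have := pi_ne
    unfold cv
    field_simp
    linear_combination h1
  · refine closed_Y _ _ _ (cos_ne (h.zre (i + 1) (by omega)))
      (sin_ne (h.zre (i + 1) (by omega))) hn
      (h.sl i (by omega)) (h.hinge_ne i (by omega)).2 ?_
    have e : 2 * I * z (i + 1) = Real.pi * I + -ql (i + 1) := by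
      linear_combination I * h1 + ql (i + 1) * I_sq
    rw [e, Complex.exp_add, Complex.exp_pi_mul_I]
    ring

end Pool.Agent.S3.G
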