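import Pool.Agent.S3.G.Slot
import Pool.Agent.S3.G.FeBw

/-!
# Stage 3, block G2: the critical value is the volume
-/

namespace Pool.Agent.S3.G

open Complex Pool.Agent.H63.VC Pool.Agent.H63.VC3 Pool.Agent.H63.VC4 Pool.Agent.H63.VC7
open scoped ComplexConjugate BigOperators

variable {m : ℕ}

/-- The slot of the vertex `i`. -/
noncomputable def slv (Op : Finset (Fin (m + 1))) (s : Fin (m + 1) → ℤ) (v : Fin (m + 1) → ℂ)
    (i : Fin (m + 1)) : Sl := if i ∈ Op then .op (v i) else .cl (s i)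

/-- The value of the potential. -/
noncomputable def Wc (r : Fin (m + 1) → ℝ) (Op : Finset (Fin (m + 1))) (s : Fin (m + 1) → ℤ)
    (y : Fin m → ℂ) (v : Fin (m + 1) → ℂ) : ℂ :=
  ∑ j, (sP (y j) (slv Op s v j.castSucc) + sP (y j) (slv Op s v j.succ)) +
    ∑ i ∈ Op, wr (r i) (v i)

/-- The critical equations (the imaginary parts are enough for the volume). -/
structure CritP (r : Fin (m + 1) → ℝ) (Op : Finset (Fin (m + 1))) (s : Fin (m + 1) → ℤ)
    (y : Fin m → ℂ) (v : Fin (m + 1) → ℂ) : Prop where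
  yre : ∀ j, -(1 / 2) < (y j).re ∧ (y j).re < 1 / 2
  dom : ∀ j, ∀ i ∈ Op, i = j.castSucc ∨ i = j.succ → fdo (y j - v i) ∧ fdo (y j + v i)
  ey : ∀ j, (dsP (y j) (slv Op s v j.castSucc) + dsP (y j) (slv Op s v j.succ)).im = 0
  ev : ∀ i ∈ Op, (dwr (r i) (v i) +
    ∑ j ∈ inc (Fin.castSucc (n := m)) Fin.succ i, vsP (y j) (v i)).im = 0

/-- The value of the potential at the critical point. -/
theorem CritP.value {r : Fin (m + 1) → ℝ} {Op : Finset (Fin (m + 1))} {s : Fin (m + 1) → ℤ}
    {y : Fin m → ℂ} {v : Fin (m + 1) → ℂ} (h : CritP r Op s y v) :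
    2 * Real.pi * (Wc r Op s y v).re =
      ∑ j, (bwP (y j) (slv Op s v j.castSucc) + bwP (y j) (slv Op s v j.succ)) := by
  classical
  set g : Fin (m + 1) → Fin m → ℝ := fun i j =>
    if i ∈ Op then (v i).im * (vsP (y j) (v i)).im else 0 with hg
  have hslot : ∀ (j : Fin m) (i : Fin (m + 1)), i = j.castSucc ∨ i = j.succ →
      2 * Real.pi * (sP (y j) (slv Op s v i)).re = bwP (y j) (slv Op s v i) -
        2 * Real.pi * (y j).im * (dsP (y j) (slv Op s v i)).im - 2 * Real.pi * g i j := by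
    intro j i hi
    obtain ⟨y0, y1⟩ := h.yre j
    by_cases ho : i ∈ Op
    · obtain ⟨d1, d2⟩ := h.dom j i ho hi
      have e1 : slv Op s v i = .op (v i) := by unfold slv; rw [if_pos ho]
      have e2 : g i j = (v i).im * (vsP (y j) (v i)).im := by
        show (if i ∈ Op then (v i).im * (vsP (y j) (v i)).im else 0) = _
        rw [if_pos ho]
      rw [e1, e2, sP_op_re _ _ y0 y1 d1 d2]
      ring
    · have e1 : slv Op s v i = .cl (s i) := by unfold slv; rw [if_neg ho]
      have e2 : g i j = 0 := by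
        show (if i ∈ Op then (v i).im * (vsP (y j) (v i)).im else 0) = _
        rw [if_neg ho]
      rw [e1, e2, sP_cl_re _ _ y0 y1]
      ring
  have hst : ∀ j : Fin m, Fin.castSucc j ≠ Fin.succ j := fun j h0 => by
    have := congrArg Fin.val h0
    simp at this
  have hsum := sum_inc (Fin.castSucc (n := m)) Fin.succ hst g
  have hsum2 : ∑ i, ∑ j ∈ inc (Fin.castSucc (n := m)) Fin.succ i, g i j =
      -∑ i ∈ Op, (v i).im * (dwr (r i) (v i)).im := by
    rw [← Finset.sum_neg_distrib, ← Finset.sum_filter_add_sum_filter_not Finset.univ (· ∈ Op)]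
    have z0 : ∑ i ∈ Finset.univ.filter (fun i => ¬ i ∈ Op),
        ∑ j ∈ inc (Fin.castSucc (n := m)) Fin.succ i, g i j = 0 := by
      refine Finset.sum_eq_zero (fun i hi => Finset.sum_eq_zero (fun j _ => ?_))
      show (if i ∈ Op then (v i).im * (vsP (y j) (v i)).im else 0) = 0
      rw [if_neg (Finset.mem_filter.1 hi).2]
    rw [z0, add_zero, Finset.filter_mem_eq_inter, Finset.univ_inter]
    refine Finset.sum_congr rfl (fun i hi => ?_)
    have e1 : ∑ j ∈ inc (Fin.castSucc (n := m)) Fin.succ i, g i j =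
        (v i).im * (∑ j ∈ inc (Fin.castSucc (n := m)) Fin.succ i, vsP (y j) (v i)).im := by
      rw [Complex.im_sum, Finset.mul_sum]
      refine Finset.sum_congr rfl (fun j _ => ?_)
      show (if i ∈ Op then (v i).im * (vsP (y j) (v i)).im else 0) = _
      rw [if_pos hi]
    have e2 := h.ev i hi
    rw [Complex.add_im] at e2
    rw [e1]
    linear_combination (v i).im * e2
  have hwr : 2 * Real.pi * ∑ i ∈ Op, (wr (r i) (v i)).re =
      -(2 * Real.pi * ∑ i ∈ Op, (v i).im * (dwr (r i) (v i)).im) := by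
    rw [Finset.mul_sum, Finset.mul_sum, ← Finset.sum_neg_distrib]
    refine Finset.sum_congr rfl (fun i _ => ?_)
    rw [wr_re]
    ring
  have hj : ∀ j, 2 * Real.pi * (sP (y j) (slv Op s v j.castSucc) +
      sP (y j) (slv Op s v j.succ)).re =
      (bwP (y j) (slv Op s v j.castSucc) + bwP (y j) (slv Op s v j.succ)) -
        2 * Real.pi * (g j.castSucc j + g j.succ j) := by
    intro j
    have h1 := hslot j _ (Or.inl rfl)
    have h2 := hslot j _ (Or.inr rfl)
    have h3 := h.ey j
    rw [Complex.add_im] at h3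
    rw [Complex.add_re]
    linear_combination h1 + h2 - 2 * Real.pi * (y j).im * h3
  unfold Wc
  rw [Complex.add_re, Complex.re_sum, Complex.re_sum, mul_add, hwr, Finset.mul_sum,
    Finset.sum_congr rfl (fun j _ => hj j), Finset.sum_sub_distrib, ← Finset.mul_sum, ← hsum,
    hsum2]
  ring

/-! ### Closed ends -/

/-- The terms of a slot at an end with two half twists. -/
theorem sW_closed (Y q : ℂ) (hq : q ≠ 0) (hq1 : q ≠ 1) (hY : Y ≠ 0) (h1 : 1 + Y ≠ 0)
    (h2 : 1 + q ≠ 0) (h3 : Y ≠ q) (h4 : Y * q ≠ 1) (h : q ^ 2 * (Y * q - 1) = Y - q) :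
    sW Y q = -blochWigner (-Y) := by
  have hr : Y * (1 + q + q ^ 2) = q := by
    have : (q - 1) * (Y * (1 + q + q ^ 2)) = (q - 1) * q := by linear_combination h
    exact mul_left_cancel₀ (sub_ne_zero.2 hq1) this
  have hn : 1 + q + q ^ 2 ≠ 0 := by
    intro h0
    rw [h0, mul_zero] at hr
    exact hq hr.symm
  have hY' : Y = q / (1 + q + q ^ 2) := eq_div_of_mul_eq hn hr
  obtain ⟨k1, k2⟩ := bw_quad Y q hY hq h1 h2 h3 h4
  have h1Y : 1 + Y = (1 + q) ^ 2 / (1 + q + q ^ 2) := by
    rw [hY']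
    field_simp
    ring
  have s1 : Y * ((1 + q) / (1 + Y)) = 1 - (1 + q)⁻¹ := by
    rw [h1Y, hY']
    field_simp
    ring
  have s2 : Y * ((1 + q) / (q * (1 + Y))) = (1 + q)⁻¹ := by
    rw [h1Y, hY']
    field_simp
  have s3 : (Y - q) * (Y - 1 / q) / (1 + Y) ^ 2 = (1 - (-Y)⁻¹)⁻¹ := by
    rw [h1Y, hY']
    have e1 : 1 - (-(q / (1 + q + q ^ 2)))⁻¹ = (1 + q) ^ 2 / q := by
      rw [inv_neg, inv_div]
      field_simp
      ring
    rw [e1, inv_div]
    field_simp
    ring
  have k3 : blochWigner (1 - (-Y)⁻¹)⁻¹ = -blochWigner (-Y) := by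
    rw [SWpath_inv, SWpath_one_sub, SWpath_inv, neg_neg]
  rw [s1, s2, SWpath_one_sub] at k1 k2
  rw [s3, k3] at k2
  unfold sW
  linarith

variable {R : ℕ} {a : ℕ → ℕ} {z ql qr : ℕ → ℂ}

theorem closed_aux (z q' κ : ℂ) (hc : cos z ≠ 0) (hs : sin z ≠ 0) (hκ : κ ≠ 0)
    (hsl : sinh q' = κ * tan z) (hU : κ ^ 2 + cos z ^ 2 ≠ 0)
    (h : exp (2 * I * z) ^ 2 * exp (2 * q') = 1) :
    sW (Yy κ (cosh q')) (exp (2 * I * z)) = -blochWigner (-Yy κ (cosh q')) := by
  obtain ⟨n1, n2, e1, e2, e3⟩ := slot_alg z q' κ hc hκ hsl hU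
  have hI : 2 * I * exp (I * z) * cos z ≠ 0 :=
    mul_ne_zero (mul_ne_zero (mul_ne_zero two_ne_zero I_ne_zero) (Complex.exp_ne_zero _)) hc
  have hY0 : Yy κ (cosh q') ≠ 0 := div_ne_zero n2 n1
  have m1 : Yy κ (cosh q') - exp (2 * I * z) ≠ 0 :=
    left_ne_zero_of_mul (by rw [e1]; exact mul_ne_zero hI (Complex.exp_ne_zero _))
  have m2 : Yy κ (cosh q') * exp (2 * I * z) - 1 ≠ 0 :=
    left_ne_zero_of_mul (by rw [e2]; exact mul_ne_zero hI (Complex.exp_ne_zero _))
  have m3 : 1 + Yy κ (cosh q') ≠ 0 :=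
    left_ne_zero_of_mul (by rw [e3]; exact mul_ne_zero two_ne_zero hκ)
  have m4 : 1 + exp (2 * I * z) ≠ 0 := by
    rw [one_add_q]
    exact mul_ne_zero (mul_ne_zero two_ne_zero hc) (Complex.exp_ne_zero _)
  have m5 : exp (2 * I * z) ≠ 1 := by
    have h1 := one_sub_q z
    intro h0
    have h2 : 2 * I * sin z * exp (I * z) = 0 := by linear_combination h1 + h0
    exact mul_ne_zero (mul_ne_zero (mul_ne_zero two_ne_zero I_ne_zero) hs)
      (Complex.exp_ne_zero _) h2
  refine sW_closed _ _ (Complex.exp_ne_zero _) m5 hY0 m3 m4 (sub_ne_zero.1 m1)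
    (sub_ne_zero.1 m2) ?_
  have h5 : exp (2 * q') * (Yy κ (cosh q') - exp (2 * I * z)) =
      Yy κ (cosh q') * exp (2 * I * z) - 1 := by
    have h1 : exp (2 * q') * exp (-q') = exp q' := by
      rw [← Complex.exp_add]
      congr 1
      ring
    have h2 : exp (2 * q') * (Yy κ (cosh q') - exp (2 * I * z)) * (κ - I * cosh q') =
        (Yy κ (cosh q') * exp (2 * I * z) - 1) * (κ - I * cosh q') := by
      rw [mul_assoc, e1, e2, ← h1]
      ring
    exact mul_right_cancel₀ n1 h2
  linear_combination (Yy κ (cosh q') - exp (2 * I * z)) * h - exp (2 * I * z) ^ 2 * h5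

theorem Crt.closed_left (h : Crt R a z ql qr) (ha : a 0 = 2) :
    sW (Yr z qr 0) (exp (2 * I * z 0)) = -blochWigner (-Yr z qr 0) := by
  have hR := h.hR
  have hn : conj (cos (z (0 + 1))) ≠ 0 := by
    rw [Ne, map_eq_zero]
    exact cos_ne (h.zre (0 + 1) (by omega))
  have he := h.exp_eq 0 (by omega)
  rw [ha, h.l0, mul_zero, Complex.exp_zero, mul_one] at he
  exact closed_aux _ _ _ (cos_ne (h.zre 0 (by omega))) (sin_ne (h.zre 0 (by omega))) hn
    (h.sr 0 (by omega)) (h.hinge_ne 0 (by omega)).1 he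

theorem Crt.closed_right (h : Crt R a z ql qr) (i : ℕ) (hi : i + 1 = R) (ha : a (i + 1) = 2) :
    sW (Yl z ql i) (exp (2 * I * z (i + 1))) = -blochWigner (-Yl z ql i) := by
  have hn : conj (cos (z i)) ≠ 0 := by
    rw [Ne, map_eq_zero]
    exact cos_ne (h.zre i (by omega))
  have he := h.exp_eq (i + 1) (by omega)
  have hr : qr (i + 1) = 0 := by rw [hi]; exact h.rR
  rw [ha, hr, mul_zero, Complex.exp_zero, mul_one] at he
  exact closed_aux _ _ _ (cos_ne (h.zre (i + 1) (by omega))) (sin_ne (h.zre (i + 1) (by omega)))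
    hn (h.sl i (by omega)) (h.hinge_ne i (by omega)).2 he

/-! ### The volume -/

theorem Yy_tan (w κ C : ℂ) (hw : cos w ≠ 0) (hκ : κ ≠ 0) (h : tan w = C / κ) :
    exp (2 * I * w) = Yy κ C := by
  have e1 : C * cos w = κ * sin w := by
    rw [tan_eq_sin_div_cos] at h
    field_simp at h
    linear_combination -h
  have e2 : exp (I * w) = cos w + I * sin w := by
    rw [mul_comm I w, Complex.exp_mul_I]
    ring
  have e3 : exp (-(I * w)) = cos w - I * sin w := by
    rw [show -(I * w) = -w * I by ring, Complex.exp_mul_I, Complex.cos_neg, Complex.sin_neg]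
    ring
  have e4 : exp (2 * I * w) * exp (-(I * w)) = exp (I * w) := by
    rw [← Complex.exp_add]
    congr 1
    ring
  have e5 : (κ - I * C) * cos w = κ * exp (-(I * w)) := by
    rw [e3]
    linear_combination -I * e1
  have e6 : (κ + I * C) * cos w = κ * exp (I * w) := by
    rw [e2]
    linear_combination I * e1
  have n1 : κ - I * C ≠ 0 :=
    left_ne_zero_of_mul (by rw [e5]; exact mul_ne_zero hκ (Complex.exp_ne_zero _))
  unfold Yy
  rw [eq_div_iff n1]
  apply mul_right_cancel₀ hw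
  rw [mul_assoc, e5, e6, ← e4]
  ring

theorem sW_inv_conj (Y q : ℂ) : sW (conj Y)⁻¹ (conj q) = sW Y q := by
  have k : ∀ w : ℂ, blochWigner (conj w)⁻¹ = blochWigner w := by
    intro w
    rw [SWpath_inv, bw_conj, neg_neg]
  unfold sW
  have e1 : (conj Y)⁻¹ / conj q = (conj (Y * q))⁻¹ := by
    rw [map_mul, mul_inv, div_eq_mul_inv]
  have e2 : (conj Y)⁻¹ * conj q = (conj (Y / q))⁻¹ := by
    rw [map_div₀, inv_div, div_eq_mul_inv, mul_comm]
  have e3 : -(conj Y)⁻¹ = (conj (-Y))⁻¹ := by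
    rw [map_neg, inv_neg]
  rw [e1, e2, e3, k, k, k]
  ring

theorem bw_neg_inv_conj (Y : ℂ) : blochWigner (-(conj Y)⁻¹) = blochWigner (-Y) := by
  have e3 : -(conj Y)⁻¹ = (conj (-Y))⁻¹ := by
    rw [map_neg, inv_neg]
  rw [e3, SWpath_inv, bw_conj, neg_neg]

theorem bwP_op (y v : ℂ) :
    bwP y (.op v) = sW (exp (2 * Real.pi * I * y)) (exp (2 * Real.pi * I * v)) := by
  have e1 : exp (2 * Real.pi * I * (y - v)) =
      exp (2 * Real.pi * I * y) / exp (2 * Real.pi * I * v) := by
    rw [← Complex.exp_sub]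
    congr 1
    ring
  have e2 : exp (2 * Real.pi * I * (y + v)) =
      exp (2 * Real.pi * I * y) * exp (2 * Real.pi * I * v) := by
    rw [← Complex.exp_add]
    congr 1
    ring
  show blochWigner (exp (2 * Real.pi * I * (y - v))) +
      blochWigner (exp (2 * Real.pi * I * (y + v))) -
      2 * blochWigner (-exp (2 * Real.pi * I * y)) = _
  rw [e1, e2]
  rfl

/-- **The critical value is the volume.** -/
theorem Crt.vol (h : Crt R a z ql qr) (r : Fin (R + 1) → ℝ) (Op : Finset (Fin (R + 1)))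
    (s : Fin (R + 1) → ℤ) (y : Fin R → ℂ) (v : Fin (R + 1) → ℂ) (hc : CritP r Op s y v)
    (hr : ∀ j : Fin R, r j.castSucc * r j.succ < 0)
    (hcl : ∀ i ∉ Op, a i = 2 ∧ ((i : ℕ) = 0 ∨ (i : ℕ) = R))
    (hv : ∀ i ∈ Op, exp (2 * Real.pi * I * v i) =
      if r i < 0 then exp (2 * I * z i) else conj (exp (2 * I * z i)))
    (hY : ∀ j : Fin R, exp (2 * Real.pi * I * y j) =
      if r j.castSucc < 0 then Yr z qr j else (conj (Yr z qr j))⁻¹) :
    IsGreatest (structureVolumes ((List.range (R + 1)).map a))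
      (2 * Real.pi * (Wc r Op s y v).re) := by
  have key := h.volume'
  rw [hc.value]
  have hs : ∑ i ∈ Finset.range R, (sW (Yr z qr i) (exp (2 * I * z i)) +
        sW (Yl z ql i) (exp (2 * I * z (i + 1)))) =
      ∑ j : Fin R, (bwP (y j) (slv Op s v j.castSucc) + bwP (y j) (slv Op s v j.succ)) := by
    rw [Finset.sum_range]
    refine Finset.sum_congr rfl (fun j _ => ?_)
    have hj := j.isLt
    have hrel := h.Y_rel j hj
    have hYl : Yl z ql j = (conj (Yr z qr j))⁻¹ := eq_inv_of_mul_eq_one_left hrel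
    have hYr : Yr z qr j = (conj (Yl z ql j))⁻¹ := by
      rw [hYl, map_inv₀, conj_conj, inv_inv]
    have hrj := hr j
    -- the two slots
    have hl : bwP (y j) (slv Op s v j.castSucc) = sW (Yr z qr j) (exp (2 * I * z j)) := by
      by_cases ho : j.castSucc ∈ Op
      · have e1 : slv Op s v j.castSucc = .op (v j.castSucc) := by unfold slv; rw [if_pos ho]
        rw [e1, bwP_op, hY, hv _ ho]
        by_cases hn : r j.castSucc < 0
        · rw [if_pos hn, if_pos hn]
          rfl
        · rw [if_neg hn, if_neg hn]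
          exact sW_inv_conj _ _
      · have e1 : slv Op s v j.castSucc = .cl (s j.castSucc) := by unfold slv; rw [if_neg ho]
        obtain ⟨a2, a0⟩ := hcl _ ho
        have a0' : (j : ℕ) = 0 := by
          rcases a0 with a0 | a0
          · simpa using a0
          · simp at a0
            omega
        have a2' : a 0 = 2 := by
          have : ((j.castSucc : Fin (R + 1)) : ℕ) = 0 := by simpa using a0'
          rw [this] at a2
          exact a2
        rw [e1, a0', h.closed_left a2', ← a0']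
        unfold bwP
        rw [hY]
        by_cases hn : r j.castSucc < 0
        · rw [if_pos hn]
        · rw [if_neg hn, bw_neg_inv_conj]
    have hr' : bwP (y j) (slv Op s v j.succ) = sW (Yl z ql j) (exp (2 * I * z (j + 1))) := by
      by_cases ho : j.succ ∈ Op
      · have e1 : slv Op s v j.succ = .op (v j.succ) := by unfold slv; rw [if_pos ho]
        rw [e1, bwP_op, hY, hv _ ho]
        by_cases hn : r j.castSucc < 0
        · have hn' : ¬ r j.succ < 0 := fun h0 => by nlinarith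
          rw [if_pos hn, if_neg hn', hYr]
          exact sW_inv_conj _ _
        · have hn' : r j.succ < 0 := by
            by_contra h0
            nlinarith
          rw [if_neg hn, if_pos hn', ← hYl]
          rfl
      · have e1 : slv Op s v j.succ = .cl (s j.succ) := by unfold slv; rw [if_neg ho]
        obtain ⟨a2, a0⟩ := hcl _ ho
        have a0' : (j : ℕ) + 1 = R := by
          rcases a0 with a0 | a0
          · simp at a0
          · simpa using a0
        have a2' : a ((j : ℕ) + 1) = 2 := by simpa using a2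
        rw [e1, h.closed_right _ a0' a2']
        unfold bwP
        rw [hY]
        by_cases hn : r j.castSucc < 0
        · rw [if_pos hn, hYr, bw_neg_inv_conj]
        · rw [if_neg hn, ← hYl]
    rw [hl, hr']
  rw [hs] at key
  exact key

end Pool.Agent.S3.G
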