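import Pool.Agent.S3.G.Layers
import Pool.Agent.H1TB.ChainGeoH

/-!
# Stage 3, block G1: the shape parameters of the critical point

Input `Crt`: the critical point `z_0, ..., z_R` of the potential (first class: all edges opposite),
with `sinh (ql (i+1)) = conj (cos (z i)) * tan (z (i+1))`,
`sinh (qr i) = conj (cos (z (i+1))) * tan (z i)` and `a i * z i = π + I * (ql i + qr i)`.
Output `geo_volume`: the volume of the two-bridge knot `C(a_0, ..., a_R)` is the sum of the
Bloch-Wigner functions of the shape parameters `zz i k`.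
-/

namespace Pool.Agent.S3.G

open Complex Pool.Agent.H63.VC Pool.Agent.H1TB
open scoped ComplexConjugate

/-- The critical point. -/
structure Crt (R : ℕ) (a : ℕ → ℕ) (z ql qr : ℕ → ℂ) : Prop where
  hR : 1 ≤ R
  ha : ∀ i, i ≤ R → 2 ≤ a i
  zre : ∀ i, i ≤ R → 0 < (z i).re ∧ (z i).re < Real.pi / 2
  zim : ∀ i, i ≤ R → 0 < (z i).im
  arg : ∀ i, i ≤ R → -(Real.pi / 4) < (cos (z i)).arg ∧ (cos (z i)).arg < 0
  l0 : ql 0 = 0
  rR : qr R = 0
  sl : ∀ i, i < R → sinh (ql (i + 1)) = conj (cos (z i)) * tan (z (i + 1))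
  sr : ∀ i, i < R → sinh (qr i) = conj (cos (z (i + 1))) * tan (z i)
  lre : ∀ i, i < R → 0 < (ql (i + 1)).re
  lim : ∀ i, i < R → 0 < (ql (i + 1)).im ∧ (ql (i + 1)).im < Real.pi / 2
  rre : ∀ i, i < R → 0 < (qr i).re
  rim : ∀ i, i < R → 0 < (qr i).im ∧ (qr i).im < Real.pi / 2
  eq : ∀ i, i ≤ R → (a i : ℂ) * z i = Real.pi + I * (ql i + qr i)

/-- `ζ = conj (ql i) - i k g`, `g = conj (z i)`. -/
noncomputable def ze (z ql : ℕ → ℂ) (i k : ℕ) : ℂ := conj (ql i) - I * k * conj (z i)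

/-- `X = sinh ζ / sin g`. -/
noncomputable def Xx (z ql : ℕ → ℂ) (i k : ℕ) : ℂ := sinh (ze z ql i k) / sin (conj (z i))

/-- The shape parameter of the layer `k` of the twist region `i`. -/
noncomputable def zz (z ql : ℕ → ℂ) (i k : ℕ) : ℂ := -((conj (Xx z ql i k)) ^ 2)⁻¹

section general

theorem sinh_split (w : ℂ) : (sinh w).re = Real.sinh w.re * Real.cos w.im ∧
    (sinh w).im = Real.cosh w.re * Real.sin w.im := by
  have h : sinh w = sinh w.re * cos w.im + cosh w.re * (sin w.im * I) := by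
    conv_lhs => rw [← re_add_im w]
    rw [sinh_add, cosh_mul_I, sinh_mul_I]
  rw [h, ← ofReal_sinh, ← ofReal_cosh, ← ofReal_cos, ← ofReal_sin]
  constructor <;> simp [-ofReal_sinh, -ofReal_cosh, -ofReal_cos, -ofReal_sin]

theorem cosh_split (w : ℂ) : (cosh w).re = Real.cosh w.re * Real.cos w.im ∧
    (cosh w).im = Real.sinh w.re * Real.sin w.im := by
  have h : cosh w = cosh w.re * cos w.im + sinh w.re * (sin w.im * I) := by
    conv_lhs => rw [← re_add_im w]
    rw [cosh_add, cosh_mul_I, sinh_mul_I]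
  rw [h, ← ofReal_sinh, ← ofReal_cosh, ← ofReal_cos, ← ofReal_sin]
  constructor <;> simp [-ofReal_sinh, -ofReal_cosh, -ofReal_cos, -ofReal_sin]

theorem sin_split (w : ℂ) : (sin w).re = Real.sin w.re * Real.cosh w.im ∧
    (sin w).im = Real.cos w.re * Real.sinh w.im := by
  rw [sin_eq, ← ofReal_sinh, ← ofReal_cosh, ← ofReal_cos, ← ofReal_sin]
  constructor <;> simp [-ofReal_sinh, -ofReal_cosh, -ofReal_cos, -ofReal_sin]

theorem cos_split (w : ℂ) : (cos w).re = Real.cos w.re * Real.cosh w.im ∧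
    (cos w).im = -(Real.sin w.re * Real.sinh w.im) := by
  rw [cos_eq, ← ofReal_sinh, ← ofReal_cosh, ← ofReal_cos, ← ofReal_sin]
  constructor <;> simp [-ofReal_sinh, -ofReal_cosh, -ofReal_cos, -ofReal_sin]

theorem sin_ne {w : ℂ} (h : 0 < w.re ∧ w.re < Real.pi / 2) : sin w ≠ 0 := by
  intro h0
  have h1 := (sin_split w).1
  rw [h0, zero_re] at h1
  have h2 := mul_pos (Real.sin_pos_of_pos_of_lt_pi h.1 (by linarith [Real.pi_pos]))
    (Real.cosh_pos w.im)
  linarith

theorem cos_ne {w : ℂ} (h : 0 < w.re ∧ w.re < Real.pi / 2) : cos w ≠ 0 := by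
  intro h0
  have h1 := (cos_split w).1
  rw [h0, zero_re] at h1
  have h2 := mul_pos (Real.cos_pos_of_mem_Ioo ⟨by linarith [Real.pi_pos], h.2⟩)
    (Real.cosh_pos w.im)
  linarith

theorem posPair_iff {w : ℂ} (h : 0 < w.re ∧ w.re < Real.pi / 2) (c : ℂ) :
    (0 < (sinh c / sin (conj w)).re ∧ (sinh c / sin (conj w)).im < 0) ↔
      PosPair w.re w.im c.re (-c.im) := by
  have hN : 0 < normSq (sin (conj w)) := by
    rw [normSq_pos]
    exact sin_ne (by simpa using h)
  rw [div_re, div_im, ← add_div, ← sub_div, div_pos_iff_of_pos_right hN, div_neg_iff]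
  rw [(sinh_split c).1, (sinh_split c).2, (sin_split (conj w)).1, (sin_split (conj w)).2]
  rw [conj_re, conj_im, Real.cosh_neg, Real.sinh_neg]
  unfold PosPair
  rw [Real.cos_neg, Real.sin_neg]
  constructor
  · rintro ⟨h1, h2⟩
    refine ⟨by linarith, ?_⟩
    rcases h2 with ⟨_, h2⟩ | ⟨h2, _⟩
    · exact absurd hN (not_lt.2 h2.le)
    · linarith
  · rintro ⟨h1, h2⟩
    exact ⟨by linarith, Or.inr ⟨by linarith, hN⟩⟩

theorem quad {w w' : ℂ} (h1 : 0 < (cos w).re) (h2 : (cos w).im < 0)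
    (h3 : -(cos w).im < (cos w).re) (h1' : 0 < (cos w').re) (h2' : (cos w').im < 0)
    (h3' : -(cos w').im < (cos w').re) :
    0 < (cos w' / cos (conj w)).re ∧ (cos w' / cos (conj w)).im < 0 := by
  have hN : 0 < normSq (cos (conj w)) := by
    rw [normSq_pos, cos_conj]
    intro h0
    rw [map_eq_zero] at h0
    rw [h0, zero_re] at h1
    exact lt_irrefl _ h1
  rw [div_re, div_im, ← add_div, ← sub_div, cos_conj, conj_re, conj_im]
  rw [cos_conj] at hN
  constructor
  · apply div_pos _ hN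
    have := mul_lt_mul'' h3 h3' (by linarith) (by linarith)
    linarith
  · apply div_neg_of_neg_of_pos _ hN
    have e1 := mul_pos h1 (neg_pos.2 h2')
    have e2 := mul_pos h1' (neg_pos.2 h2)
    linarith

theorem im_shape {X : ℂ} (h : 0 < X.re ∧ X.im < 0) : 0 < (-((conj X) ^ 2)⁻¹).im := by
  have hX : X ≠ 0 := by
    rintro rfl
    simp at h
  have hN : 0 < normSq ((conj X) ^ 2) := by
    rw [normSq_pos]
    exact pow_ne_zero 2 (by simpa using hX)
  rw [neg_im, inv_im, neg_div, neg_neg]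
  apply div_pos _ hN
  rw [pow_two, mul_im, conj_re, conj_im]
  have := mul_pos h.1 (neg_pos.2 h.2)
  linarith

theorem nb {w w' q : ℂ} (hw : 0 < w.re ∧ w.re < Real.pi / 2)
    (h : sinh q = conj (cos w') * tan w) :
    sinh (conj q) / sin (conj w) = cos w' / cos (conj w) := by
  have h1 : sin (conj w) ≠ 0 := sin_ne (by simpa using hw)
  have h2 : cos (conj w) ≠ 0 := cos_ne (by simpa using hw)
  rw [sinh_conj, h, map_mul, conj_conj, ← tan_conj, tan_eq_sin_div_cos]
  field_simp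

/-- `X (k-1) X (k+1) = X k ^ 2 + 1`. -/
theorem X_rec (z ql : ℕ → ℂ) (i k : ℕ) (hz : sin (conj (z i)) ≠ 0) :
    Xx z ql i k * Xx z ql i (k + 2) = Xx z ql i (k + 1) ^ 2 + 1 := by
  have e1 : ze z ql i k = ze z ql i (k + 1) + conj (z i) * I := by
    unfold ze; push_cast; ring
  have e2 : ze z ql i (k + 2) = ze z ql i (k + 1) - conj (z i) * I := by
    unfold ze; push_cast; ring
  have h1 := cosh_sq (ze z ql i (k + 1))
  have h2 := sin_sq_add_cos_sq (conj (z i))
  unfold Xx
  rw [e1, e2, sinh_add, sinh_sub, cosh_mul_I, sinh_mul_I]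
  generalize sinh (ze z ql i (k + 1)) = s at *
  generalize cosh (ze z ql i (k + 1)) = c at *
  generalize sin (conj (z i)) = t at *
  generalize cos (conj (z i)) = u at *
  have h3 : (s * u + c * (t * I)) * (s * u - c * (t * I)) = s ^ 2 + t ^ 2 := by
    linear_combination t ^ 2 * h1 + s ^ 2 * h2 - c ^ 2 * t ^ 2 * I_sq
  rw [div_mul_div_comm, h3, div_pow]
  field_simp

end general

section crt

variable {R : ℕ} {a : ℕ → ℕ} {z ql qr : ℕ → ℂ} (h : Crt R a z ql qr)
include h

theorem Crt.cre (i : ℕ) (hi : i ≤ R) : 0 < (conj (z i)).re ∧ (conj (z i)).re < Real.pi / 2 := by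
  simpa using h.zre i hi

theorem Crt.cosz (i : ℕ) (hi : i ≤ R) : 0 < (cos (z i)).re ∧ (cos (z i)).im < 0 ∧
    -(cos (z i)).im < (cos (z i)).re := by
  have h1 := h.zre i hi
  have h2 := h.zim i hi
  have h3 : 0 < (cos (z i)).re := by
    rw [(cos_split (z i)).1]
    exact mul_pos (Real.cos_pos_of_mem_Ioo ⟨by linarith [Real.pi_pos], h1.2⟩) (Real.cosh_pos _)
  have h4 : (cos (z i)).im < 0 := by
    rw [(cos_split (z i)).2]
    exact neg_neg_of_pos (mul_pos (Real.sin_pos_of_pos_of_lt_pi h1.1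
      (by linarith [Real.pi_pos])) (Real.sinh_pos_iff.2 h2))
  refine ⟨h3, h4, ?_⟩
  have h5 := h.arg i hi
  have h6 : Real.tan (-(Real.pi / 4)) < Real.tan (cos (z i)).arg :=
    Real.tan_lt_tan_of_lt_of_lt_pi_div_two (by linarith [Real.pi_pos])
      (by linarith [Real.pi_pos, h5.2]) h5.1
  rw [Real.tan_neg, Real.tan_pi_div_four, tan_arg, lt_div_iff₀ h3] at h6
  linarith

theorem Crt.eq_re (i : ℕ) (hi : i ≤ R) :
    (a i : ℝ) * (z i).re = Real.pi - ((ql i).im + (qr i).im) := by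
  have h1 := congrArg Complex.re (h.eq i hi)
  simp at h1
  linarith

theorem Crt.eq_im (i : ℕ) (hi : i ≤ R) :
    (a i : ℝ) * (z i).im = (ql i).re + (qr i).re := by
  have h1 := congrArg Complex.im (h.eq i hi)
  simp at h1
  linarith

omit h in
theorem ze_re (i k : ℕ) : (ze z ql i k).re = (ql i).re - (z i).im * k := by
  unfold ze
  simp
  ring

omit h in
theorem ze_im (i k : ℕ) : (ze z ql i k).im = -((z i).re * k + (ql i).im) := by
  unfold ze
  simp
  ring

theorem Crt.X_iff (i k : ℕ) (hi : i ≤ R) :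
    (0 < (Xx z ql i k).re ∧ (Xx z ql i k).im < 0) ↔
      PosPair (z i).re (z i).im ((ql i).re - (z i).im * k) ((z i).re * k + (ql i).im) := by
  unfold Xx
  rw [posPair_iff (h.zre i hi), ze_re, ze_im, neg_neg]

/-- `ζ` at the end of the twist region. -/
theorem Crt.ze_end (i : ℕ) (hi : i ≤ R) : ze z ql i (a i) = -(conj (qr i) + Real.pi * I) := by
  have h1 := congrArg conj (h.eq i hi)
  rw [map_mul, map_add, map_mul, map_add, conj_I, conj_ofReal, Complex.conj_natCast] at h1
  unfold ze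
  linear_combination -I * h1 + (conj (ql i) + conj (qr i)) * I_sq

theorem Crt.X_end (i : ℕ) (hi : i < R) :
    Xx z ql i (a i) = cos (z (i + 1)) / cos (conj (z i)) := by
  unfold Xx
  rw [h.ze_end i hi.le, sinh_neg, sinh_add_pi_mul_I, neg_neg]
  exact nb (h.zre i hi.le) (h.sr i hi)

theorem Crt.X_start (i : ℕ) (hi : i < R) :
    Xx z ql (i + 1) 0 = cos (z i) / cos (conj (z (i + 1))) := by
  unfold Xx ze
  rw [Nat.cast_zero, mul_zero, zero_mul, sub_zero]
  exact nb (h.zre (i + 1) hi) (h.sl i hi)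

theorem Crt.X_end_quad (i : ℕ) (hi : i < R) :
    0 < (Xx z ql i (a i)).re ∧ (Xx z ql i (a i)).im < 0 := by
  rw [h.X_end i hi]
  obtain ⟨h1, h2, h3⟩ := h.cosz i hi.le
  obtain ⟨h1', h2', h3'⟩ := h.cosz (i + 1) hi
  exact quad h1 h2 h3 h1' h2' h3'

theorem Crt.X_start_quad (i : ℕ) (hi : i < R) :
    0 < (Xx z ql (i + 1) 0).re ∧ (Xx z ql (i + 1) 0).im < 0 := by
  rw [h.X_start i hi]
  obtain ⟨h1, h2, h3⟩ := h.cosz i hi.le
  obtain ⟨h1', h2', h3'⟩ := h.cosz (i + 1) hi
  exact quad h1' h2' h3' h1 h2 h3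

theorem Crt.X_pos (i k : ℕ) (hi : i ≤ R) (hk : 1 ≤ k) (hk2 : k ≤ a i - 1)
    (hf : ¬(i = 0 ∧ k = 1)) (hl : ¬(i = R ∧ k = a i - 1)) :
    0 < (Xx z ql i k).re ∧ (Xx z ql i k).im < 0 := by
  rw [h.X_iff i k hi]
  have ha := h.ha i hi
  have hz := h.zre i hi
  have hy := h.zim i hi
  have e1 := h.eq_re i hi
  have e2 := h.eq_im i hi
  rcases le_or_gt ((z i).re * k + (ql i).im) (Real.pi / 2) with hh | hh
  · have hl0 : 0 ≤ (ql i).re ∧ 0 ≤ (ql i).im := by
      rcases Nat.eq_zero_or_pos i with rfl | hp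
      · rw [h.l0]; simp
      · obtain ⟨j, rfl⟩ : ∃ j, i = j + 1 := ⟨i - 1, by omega⟩
        exact ⟨(h.lre j (by omega)).le, (h.lim j (by omega)).1.le⟩
    refine PosPair_half k hz.1 hz.2 hy hl0.1 hl0.2 hk (fun h1 => ?_) hh (fun h1 => ?_)
    · obtain ⟨j, rfl⟩ : ∃ j, i = j + 1 := ⟨i - 1, by omega⟩
      exact h.lre j (by omega)
    · have hp : i ≠ 0 := by
        rintro rfl
        rw [h.l0] at h1
        simp at h1
      obtain ⟨j, rfl⟩ : ∃ j, i = j + 1 := ⟨i - 1, by omega⟩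
      refine ⟨(h.lim j (by omega)).1, ?_⟩
      have h2 := ((h.X_iff (j + 1) 0 hi).1 (h.X_start_quad j (by omega))).2
      simpa using h2
  · have hl0 : 0 ≤ (qr i).re ∧ 0 ≤ (qr i).im := by
      rcases Nat.lt_or_ge i R with hp | hp
      · exact ⟨(h.rre i hp).le, (h.rim i hp).1.le⟩
      · have : i = R := by omega
        rw [this, h.rR]; simp
    have hcast : ((a i - k : ℕ) : ℝ) = a i - k := by
      rw [Nat.cast_sub (by omega)]
    have e3 : (qr i).re - (z i).im * ((a i - k : ℕ) : ℝ) = -((ql i).re - (z i).im * k) := by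
      rw [hcast]; linarith
    have e4 : (z i).re * ((a i - k : ℕ) : ℝ) + (qr i).im =
        Real.pi - ((z i).re * k + (ql i).im) := by
      rw [hcast]; linarith
    rw [← PosPair.mirror, ← e3, ← e4]
    refine PosPair_half (a i - k) hz.1 hz.2 hy hl0.1 hl0.2 (by omega) (fun h1 => ?_)
      (by rw [e4]; linarith) (fun h1 => ?_)
    · exact h.rre i (by omega)
    · have hp : i < R := by
        rcases Nat.lt_or_ge i R with hp | hp
        · exact hp
        · have : i = R := by omega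
          rw [this, h.rR] at h1
          simp at h1
      refine ⟨(h.rim i hp).1, ?_⟩
      have h2 := (h.X_iff i (a i) hi).1 (h.X_end_quad i hp)
      rw [← PosPair.mirror] at h2
      have e5 : -((ql i).re - (z i).im * (a i)) = (qr i).re := by linarith
      have e6 : Real.pi - ((z i).re * (a i) + (ql i).im) = (qr i).im := by linarith
      rw [e5, e6] at h2
      exact h2.2

theorem Crt.X_first : Xx z ql 0 1 = -I := by
  have h1 := sin_ne (h.cre 0 (Nat.zero_le _))
  unfold Xx ze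
  rw [h.l0, map_zero, zero_sub, Nat.cast_one, mul_one, mul_comm, sinh_neg, sinh_mul_I]
  field_simp

theorem Crt.X_last : Xx z ql R (a R - 1) = -I := by
  have h1 := sin_ne (h.cre R le_rfl)
  have h2 := h.ze_end R le_rfl
  have ha := h.ha R le_rfl
  have e : ze z ql R (a R - 1) = ze z ql R (a R) + conj (z R) * I := by
    unfold ze
    rw [Nat.cast_sub (by omega)]
    push_cast
    ring
  have e2 : ze z ql R (a R - 1) = -(-(conj (z R) * I) + Real.pi * I) := by
    rw [e, h2, h.rR, map_zero]; ring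
  unfold Xx
  rw [e2, sinh_neg, sinh_add_pi_mul_I, sinh_neg, sinh_mul_I]
  field_simp

theorem Crt.X_ne (i k : ℕ) (hi : i ≤ R) (hk : k ≤ a i) (hf : i = 0 → 1 ≤ k)
    (hl : i = R → k ≤ a i - 1) : Xx z ql i k ≠ 0 := by
  have hne : ∀ x : ℂ, 0 < x.re ∧ x.im < 0 → x ≠ 0 := by
    rintro x hx rfl
    simp at hx
  by_cases c1 : i = 0 ∧ k = 1
  · obtain ⟨rfl, rfl⟩ := c1
    rw [h.X_first]; simp
  by_cases c2 : i = R ∧ k = a i - 1
  · obtain ⟨rfl, rfl⟩ := c2
    rw [h.X_last]; simp
  rcases Nat.eq_zero_or_pos k with rfl | hkp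
  · obtain ⟨j, rfl⟩ : ∃ j, i = j + 1 := ⟨i - 1, by omega⟩
    exact hne _ (h.X_start_quad j (by omega))
  · rcases Nat.lt_or_ge k (a i) with hka | hka
    · exact hne _ (h.X_pos i k hi hkp (by omega) c1 c2)
    · have hke : k = a i := by omega
      have hiR : i < R := by
        rcases Nat.lt_or_ge i R with hp | hp
        · exact hp
        · have := hl (by omega)
          have := h.ha i hi
          omega
      rw [hke]
      exact hne _ (h.X_end_quad i hiR)

/-- The relation of the fans. -/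
theorem Crt.fan (i k : ℕ) (hi : i ≤ R) (hk : 1 ≤ k) (hk2 : k ≤ a i - 1)
    (hf : ¬(i = 0 ∧ k = 1)) (hl : ¬(i = R ∧ k = a i - 1)) :
    (1 - (zz z ql i k)⁻¹) ^ 2 * zz z ql i (k - 1) * zz z ql i (k + 1) = 1 := by
  obtain ⟨k, rfl⟩ : ∃ k', k = k' + 1 := ⟨k - 1, by omega⟩
  have ha := h.ha i hi
  rw [Nat.add_sub_cancel]
  have h1 := h.X_ne i k hi (by omega) (by omega) (by omega)
  have h2 := h.X_ne i (k + 1 + 1) hi (by omega) (by omega) (by omega)
  have h3 := X_rec z ql i k (sin_ne (h.cre i hi))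
  have h4 := congrArg conj h3
  rw [map_mul, map_add, map_pow, map_one] at h4
  have h1' : conj (Xx z ql i k) ≠ 0 := by simpa using h1
  have h2' : conj (Xx z ql i (k + 2)) ≠ 0 := by simpa using h2
  unfold zz
  rw [inv_neg, inv_inv, sub_neg_eq_add, add_comm 1, ← h4]
  field_simp

theorem Crt.sign (i : ℕ) (hi : i < R) :
    cos (conj (z i)) * cosh (conj (qr i)) = cos (z (i + 1)) * cosh (ql (i + 1)) := by
  obtain ⟨h1, h2, h3⟩ := h.cosz i hi.le
  obtain ⟨h1', h2', h3'⟩ := h.cosz (i + 1) hi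
  have n1 : cos (conj (z i)) ≠ 0 := cos_ne (h.cre i hi.le)
  have n2 : cos (z (i + 1)) ≠ 0 := cos_ne (h.zre (i + 1) hi)
  have s1 : sinh (conj (qr i)) * cos (conj (z i)) = cos (z (i + 1)) * sin (conj (z i)) := by
    rw [sinh_conj, h.sr i hi, map_mul, conj_conj, ← tan_conj, tan_eq_sin_div_cos]
    field_simp
  have s2 : sinh (ql (i + 1)) * cos (z (i + 1)) = cos (conj (z i)) * sin (z (i + 1)) := by
    rw [h.sl i hi, cos_conj, tan_eq_sin_div_cos]
    field_simp
  have q1 := cosh_sq (conj (qr i))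
  have q2 := cosh_sq (ql (i + 1))
  have t1 := sin_sq_add_cos_sq (conj (z i))
  have t2 := sin_sq_add_cos_sq (z (i + 1))
  have key : (cos (conj (z i)) * cosh (conj (qr i))) ^ 2 =
      (cos (z (i + 1)) * cosh (ql (i + 1))) ^ 2 := by
    have s1' : (sinh (conj (qr i)) * cos (conj (z i))) ^ 2 =
        (cos (z (i + 1)) * sin (conj (z i))) ^ 2 := by rw [s1]
    have s2' : (sinh (ql (i + 1)) * cos (z (i + 1))) ^ 2 =
        (cos (conj (z i)) * sin (z (i + 1))) ^ 2 := by rw [s2]
    linear_combination cos (conj (z i)) ^ 2 * q1 - cos (z (i + 1)) ^ 2 * q2 + s1' - s2' +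
      cos (z (i + 1)) ^ 2 * t1 - cos (conj (z i)) ^ 2 * t2
  rcases sq_eq_sq_iff_eq_or_eq_neg.1 key with h4 | h4
  · exact h4
  · exfalso
    have c1 : 0 < (cosh (conj (qr i))).re ∧ (cosh (conj (qr i))).im < 0 := by
      rw [(cosh_split _).1, (cosh_split _).2, conj_re, conj_im, Real.cos_neg, Real.sin_neg]
      have h5 := h.rim i hi
      refine ⟨mul_pos (Real.cosh_pos _)
        (Real.cos_pos_of_mem_Ioo ⟨by linarith [Real.pi_pos], h5.2⟩), ?_⟩
      rw [mul_neg]
      exact neg_neg_of_pos (mul_pos (Real.sinh_pos_iff.2 (h.rre i hi))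
        (Real.sin_pos_of_pos_of_lt_pi h5.1 (by linarith [Real.pi_pos])))
    have c2 : 0 < (cosh (ql (i + 1))).re ∧ 0 < (cosh (ql (i + 1))).im := by
      rw [(cosh_split _).1, (cosh_split _).2]
      have h5 := h.lim i hi
      exact ⟨mul_pos (Real.cosh_pos _)
        (Real.cos_pos_of_mem_Ioo ⟨by linarith [Real.pi_pos], h5.2⟩),
        mul_pos (Real.sinh_pos_iff.2 (h.lre i hi))
        (Real.sin_pos_of_pos_of_lt_pi h5.1 (by linarith [Real.pi_pos]))⟩
    have h6 := congrArg Complex.re h4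
    rw [cos_conj, mul_re, neg_re, mul_re, conj_re, conj_im] at h6
    have p1 := mul_pos h1 c1.1
    have p2 := mul_pos (neg_pos.2 h2) (neg_pos.2 c1.2)
    have p3 := mul_pos h1' c2.1
    have p4 := mul_pos (neg_pos.2 h2') c2.2
    linarith

theorem Crt.hinge (i : ℕ) (hi : i < R) :
    Xx z ql i (a i - 1) * conj (Xx z ql (i + 1) 1) =
      Xx z ql i (a i) + (Xx z ql i (a i))⁻¹ := by
  have n1 : cos (conj (z i)) ≠ 0 := cos_ne (h.cre i hi.le)
  have n2 : cos (z (i + 1)) ≠ 0 := cos_ne (h.zre (i + 1) hi)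
  have n3 : sin (conj (z i)) ≠ 0 := sin_ne (h.cre i hi.le)
  have n4 : sin (z (i + 1)) ≠ 0 := sin_ne (h.zre (i + 1) hi)
  have ha := h.ha i hi.le
  have x1 : Xx z ql i (a i - 1) = cos (z (i + 1)) - I * cosh (conj (qr i)) := by
    have e : ze z ql i (a i - 1) = -((conj (qr i) - conj (z i) * I) + Real.pi * I) := by
      have e0 : ze z ql i (a i - 1) = ze z ql i (a i) + conj (z i) * I := by
        unfold ze
        rw [Nat.cast_sub (by omega)]
        push_cast
        ring
      rw [e0, h.ze_end i hi.le]; ring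
    have h2 := nb (h.zre i hi.le) (h.sr i hi)
    rw [div_eq_div_iff n3 n1] at h2
    unfold Xx
    rw [e, sinh_neg, sinh_add_pi_mul_I, neg_neg, sinh_sub, cosh_mul_I, sinh_mul_I,
      div_eq_iff n3]
    linear_combination h2
  have x2 : conj (Xx z ql (i + 1) 1) = cos (conj (z i)) + I * cosh (ql (i + 1)) := by
    have e : ze z ql (i + 1) 1 = conj (ql (i + 1) + z (i + 1) * I) := by
      unfold ze
      rw [map_add, map_mul, conj_I]
      push_cast
      ring
    have s2 : sinh (ql (i + 1)) * cos (z (i + 1)) = cos (conj (z i)) * sin (z (i + 1)) := by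
      rw [h.sl i hi, cos_conj, tan_eq_sin_div_cos]
      field_simp
    unfold Xx
    rw [e, sinh_conj, sin_conj, ← map_div₀, conj_conj, sinh_add, cosh_mul_I, sinh_mul_I,
      div_eq_iff n4]
    linear_combination s2
  have hs := h.sign i hi
  have s1 : sinh (conj (qr i)) * cos (conj (z i)) = cos (z (i + 1)) * sin (conj (z i)) := by
    have h2 := nb (h.zre i hi.le) (h.sr i hi)
    rw [div_eq_div_iff n3 n1] at h2
    exact h2
  have s1' : (sinh (conj (qr i)) * cos (conj (z i))) ^ 2 =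
      (cos (z (i + 1)) * sin (conj (z i))) ^ 2 := by rw [s1]
  have q1 := cosh_sq (conj (qr i))
  have t1 := sin_sq_add_cos_sq (conj (z i))
  rw [x1, x2, h.X_end i hi, inv_div]
  have key : cosh (conj (qr i)) * cosh (ql (i + 1)) * (cos (z (i + 1)) * cos (conj (z i))) =
      cos (conj (z i)) ^ 2 + cos (z (i + 1)) ^ 2 - cos (conj (z i)) ^ 2 * cos (z (i + 1)) ^ 2 := by
    linear_combination -(cos (conj (z i)) * cosh (conj (qr i))) * hs +
      cos (conj (z i)) ^ 2 * q1 + s1' + cos (z (i + 1)) ^ 2 * t1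
  have e3 : (cos (z (i + 1)) - I * cosh (conj (qr i))) * (cos (conj (z i)) + I * cosh (ql (i + 1)))
      = cos (z (i + 1)) * cos (conj (z i)) + cosh (conj (qr i)) * cosh (ql (i + 1)) := by
    linear_combination I * hs * (-1) - cosh (conj (qr i)) * cosh (ql (i + 1)) * I_sq
  rw [e3, div_add_div _ _ n1 n2, eq_div_iff (mul_ne_zero n1 n2)]
  linear_combination key

/-- The relation of the two layers at a hinge. -/
theorem Crt.opp_start (i : ℕ) (hi : i < R) :
    zz z ql (i + 1) 0 * conj (zz z ql i (a i)) = 1 := by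
  have n1 : cos (conj (z i)) ≠ 0 := cos_ne (h.cre i hi.le)
  have n2 : cos (z (i + 1)) ≠ 0 := cos_ne (h.zre (i + 1) hi)
  have e : conj (Xx z ql (i + 1) 0) = (Xx z ql i (a i))⁻¹ := by
    rw [h.X_start i hi, h.X_end i hi, inv_div, map_div₀, ← cos_conj, ← cos_conj, conj_conj]
  have n3 : Xx z ql i (a i) ≠ 0 := by
    rw [h.X_end i hi]
    exact div_ne_zero n2 n1
  unfold zz
  rw [e, map_neg, map_inv₀, map_pow, conj_conj]
  field_simp

theorem Crt.opp_hinge (i : ℕ) (hi : i < R) :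
    (1 - zz z ql i (a i)) ^ 2 * zz z ql i (a i - 1) * conj (zz z ql (i + 1) 1) =
      -zz z ql i (a i) := by
  have ha := h.ha i hi.le
  have ha' := h.ha (i + 1) hi
  have n1 : conj (Xx z ql i (a i)) ≠ 0 := by
    simpa using h.X_ne i (a i) hi.le le_rfl (by omega) (by omega)
  have n2 : conj (Xx z ql i (a i - 1)) ≠ 0 := by
    simpa using h.X_ne i (a i - 1) hi.le (by omega) (by omega) (by omega)
  have n3 : Xx z ql (i + 1) 1 ≠ 0 :=
    h.X_ne (i + 1) 1 hi (by omega) (by omega) (by omega)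
  have h1 := congrArg conj (h.hinge i hi)
  rw [map_mul, conj_conj, map_add, map_inv₀] at h1
  unfold zz
  rw [map_neg, map_inv₀, map_pow, conj_conj]
  generalize conj (Xx z ql i (a i)) = x at *
  generalize conj (Xx z ql i (a i - 1)) = y at *
  generalize Xx z ql (i + 1) 1 = w at *
  have h2 : y * w * x = x ^ 2 + 1 := by
    rw [h1]
    field_simp
  have h3 : (x ^ 2 + 1) ^ 2 = (y * w * x) ^ 2 := by rw [h2]
  field_simp
  linear_combination h3

end crt

/-- The list of half twists with alternating signs. -/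
def alt (a : ℕ → ℕ) (i : ℕ) : ℤ := (-1) ^ i * (a i : ℤ)

theorem alt_natAbs (a : ℕ → ℕ) (i : ℕ) : (alt a i).natAbs = a i := by
  unfold alt
  rw [Int.natAbs_mul, Int.natAbs_pow]
  simp

theorem alt_mul {a : ℕ → ℕ} {i : ℕ} (h : 0 < a i) (h' : 0 < a (i + 1)) :
    alt a i * alt a (i + 1) < 0 := by
  unfold alt
  have e : ((-1 : ℤ)) ^ i * (-1) ^ i = 1 := by rw [← mul_pow]; simp
  have e2 : ((-1 : ℤ)) ^ i * (a i : ℤ) * ((-1) ^ (i + 1) * (a (i + 1) : ℤ)) =
      -((a i : ℤ) * (a (i + 1) : ℤ)) := by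
    rw [pow_succ]
    linear_combination -((a i : ℤ) * (a (i + 1) : ℤ)) * e
  rw [e2]
  have : (0 : ℤ) < (a i : ℤ) * (a (i + 1) : ℤ) := by positivity
  omega

theorem conwayH_opp (R : ℕ) : ∀ r : ℕ → ℤ, (∀ i, i < R → r i * r (i + 1) < 0) →
    conwayHAux 0 ((List.range (R + 1)).map r) =
      (List.range (R + 1)).map (fun i => (r i).natAbs) := by
  induction R with
  | zero => intro r _; simp [conwayHAux]
  | succ R ih =>
    intro r hr
    rw [HX_step, if_neg (not_lt.2 (hr 0 (by omega)).le), Nat.sub_zero,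
      ih (fun i => r (i + 1)) (fun i hi => hr (i + 1) (by omega))]
    conv_rhs => rw [List.range_succ_eq_map, List.map_cons, List.map_map]
    rfl

/-- **The volume of `C(a_0, ..., a_R)` in terms of the critical point.** -/
theorem Crt.volume {R : ℕ} {a : ℕ → ℕ} {z ql qr : ℕ → ℂ} (h : Crt R a z ql qr) :
    IsGreatest (structureVolumes ((List.range (R + 1)).map a))
      (2 * ∑ i ∈ Finset.range (R + 1), ∑ k ∈ Finset.Icc 1 (a i - 1),
          blochWigner (zz z ql i k) +
        2 * ∑ i ∈ Finset.range R, blochWigner (zz z ql i (a i))) := by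
  have ho : ∀ i, i < R → alt a i * alt a (i + 1) < 0 := fun i hi =>
    alt_mul (by have := h.ha i hi.le; omega) (by have := h.ha (i + 1) hi; omega)
  have hsh : ∀ i k, i ≤ R → Xx z ql i k = -I → zz z ql i k = 1 := by
    intro i k _ e
    unfold zz
    rw [e, map_neg, conj_I, neg_neg, I_sq]
    norm_num
  have key := chain_geoH (alt a) R h.hR
    (fun i hi => by rw [alt_natAbs]; exact h.ha i (by omega))
    (fun i h1 h2 _ h4 => absurd h4 (not_lt.2 (ho i h2).le))
    (fun h1 => absurd h1 (not_lt.2 (ho 0 (by have := h.hR; omega)).le))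
    (fun h1 => by
      have hR := h.hR
      have := ho (R - 1) (by omega)
      rw [Nat.sub_add_cancel hR] at this
      exact absurd h1 (not_lt.2 this.le))
    (fun i hi => (ho i hi).ne) (zz z ql)
    (fun i k hi h1 h2 h3 h4 => by
      rw [alt_natAbs] at h2 h4
      exact im_shape (h.X_pos i k (by omega) h1 h2 h3 h4))
    (hsh 0 1 (by omega) h.X_first)
    (by rw [alt_natAbs]; exact hsh R _ le_rfl h.X_last)
    (fun i k hi h1 h2 h3 h4 => by
      rw [alt_natAbs] at h2 h4
      exact h.fan i k (by omega) h1 h2 h3 h4)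
    (fun i hi _ => by
      rw [alt_natAbs]
      exact ⟨im_shape (h.X_end_quad i hi), h.opp_start i hi, h.opp_hinge i hi⟩)
    (fun i hi h1 => absurd h1 (not_lt.2 (ho i hi).le))
  unfold conwayH at key
  rw [conwayH_opp R _ ho] at key
  simp only [alt_natAbs] at key
  have e : ∑ i ∈ Finset.range R, (if alt a i * alt a (i + 1) < 0 then
      blochWigner (zz z ql i (a i)) else 0) = ∑ i ∈ Finset.range R, blochWigner (zz z ql i (a i)) :=
    Finset.sum_congr rfl fun i hi => if_pos (ho i (Finset.mem_range.1 hi))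
  rw [e] at key
  exact key

end Pool.Agent.S3.G
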