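import Pool.Agent.S3.G.Shapes
import Pool.Agent.H63.VC4.FanSum

/-!
# Stage 3, block G2: the volume of a twist region

`sD z q` is the share of a slot `q` (`sinh q = κ tan z`): the sum of the Bloch-Wigner functions of
the shapes `zz i k`, `1 ≤ k < a i`, is `sD (z i) (ql i) + sD (z i) (qr i)`.
-/

namespace Pool.Agent.S3.G

open Complex Pool.Agent.H63.VC Pool.Agent.H63.VC3 Pool.Agent.H63.VC4
open scoped ComplexConjugate

/-- The share of a slot in the volume of a twist region. -/
noncomputable def sD (z q : ℂ) : ℝ :=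
  blochWigner ((exp (2 * I * z) * exp (2 * q) - 1) / (exp (2 * q) - 1)) -
    blochWigner ((exp (2 * I * z) * exp (2 * q) - 1) / (exp (2 * I * z) - 1))

theorem four_sinh_sq (w : ℂ) : 4 * sinh w ^ 2 * exp (2 * w) = (exp (2 * w) - 1) ^ 2 := by
  have h1 : exp (2 * w) = exp w ^ 2 := by rw [← Complex.exp_nat_mul]; push_cast; ring_nf
  have h2 : exp (-w) * exp w = 1 := by rw [← Complex.exp_add, neg_add_cancel, Complex.exp_zero]
  rw [Complex.sinh, h1]
  linear_combination -(2 * exp w ^ 2 - exp (-w) * exp w - 1) * h2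

theorem four_sin_sq (z : ℂ) : 4 * sin z ^ 2 * exp (2 * I * z) = -(exp (2 * I * z) - 1) ^ 2 := by
  have h := four_sinh_sq (z * I)
  rw [sinh_mul_I, show 2 * (z * I) = 2 * I * z by ring] at h
  linear_combination -h + 4 * sin z ^ 2 * exp (2 * I * z) * I_sq

/-- `zz` in terms of `x_k = (q^k e - 1)/(q - 1)`, `q = exp (2 i z)`, `e = exp (2 ql)`. -/
theorem zz_eq (z ql : ℕ → ℂ) (i k : ℕ) (hz : sin (z i) ≠ 0) (hX : Xx z ql i (k + 1) ≠ 0) :
    zz z ql i (k + 1) = (exp (2 * I * z i) ^ k * exp (2 * ql i)) /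
      ((exp (2 * I * z i) ^ (k + 1) * exp (2 * ql i) - 1) / (exp (2 * I * z i) - 1)) ^ 2 := by
  have e0 : ze z ql i (k + 1) = conj (ql i + I * ((k + 1 : ℕ) : ℂ) * z i) := by
    unfold ze
    rw [map_add, map_mul, map_mul, conj_I, Complex.conj_natCast]
    ring
  have hc : conj (Xx z ql i (k + 1)) = sinh (ql i + I * ((k + 1 : ℕ) : ℂ) * z i) / sin (z i) := by
    unfold Xx
    rw [e0, sinh_conj, sin_conj, ← map_div₀, conj_conj]
  have hs : sinh (ql i + I * ((k + 1 : ℕ) : ℂ) * z i) ≠ 0 := by
    intro h0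
    apply hX
    rw [h0, zero_div, map_eq_zero] at hc
    exact hc
  have h1 := four_sinh_sq (ql i + I * ((k + 1 : ℕ) : ℂ) * z i)
  have h2 := four_sin_sq (z i)
  have e1 : exp (2 * (ql i + I * ((k + 1 : ℕ) : ℂ) * z i)) =
      exp (2 * I * z i) ^ (k + 1) * exp (2 * ql i) := by
    rw [← Complex.exp_nat_mul, ← Complex.exp_add]
    congr 1
    ring
  rw [e1] at h1
  have hq0 : exp (2 * I * z i) ≠ 0 := Complex.exp_ne_zero _
  have he0 : exp (2 * ql i) ≠ 0 := Complex.exp_ne_zero _
  unfold zz
  rw [hc]
  generalize sinh (ql i + I * ((k + 1 : ℕ) : ℂ) * z i) = s at *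
  generalize sin (z i) = t at *
  generalize exp (2 * I * z i) = q at *
  generalize exp (2 * ql i) = e at *
  have hqe : q ^ (k + 1) * e ≠ 0 := mul_ne_zero (pow_ne_zero _ hq0) he0
  have n1 : q ^ (k + 1) * e - 1 ≠ 0 := by
    intro h0
    rw [h0] at h1
    exact mul_ne_zero (mul_ne_zero (by norm_num : (4 : ℂ) ≠ 0) (pow_ne_zero 2 hs)) hqe (by rw [h1]; ring)
  have n2 : q - 1 ≠ 0 := by
    intro h0
    rw [h0] at h2
    exact mul_ne_zero (mul_ne_zero (by norm_num : (4 : ℂ) ≠ 0) (pow_ne_zero 2 hz)) hq0 (by rw [h2]; ring)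
  rw [div_pow, inv_div, div_pow, ← neg_div, div_div_eq_mul_div,
    div_eq_div_iff (pow_ne_zero 2 hs) (pow_ne_zero 2 n1)]
  have h3 : 4 * q * (-t ^ 2 * (q ^ (k + 1) * e - 1) ^ 2) =
      4 * q * (q ^ k * e * (q - 1) ^ 2 * s ^ 2) := by
    rw [← h1]
    have : (q - 1) ^ 2 = -(4 * t ^ 2 * q) := by rw [h2]; ring
    rw [this, pow_succ]
    ring
  exact mul_left_cancel₀ (mul_ne_zero (by norm_num : (4 : ℂ) ≠ 0) hq0) h3

variable {R : ℕ} {a : ℕ → ℕ} {z ql qr : ℕ → ℂ}

/-- `q^a e e' = 1`. -/
theorem Crt.exp_eq (h : Crt R a z ql qr) (i : ℕ) (hi : i ≤ R) :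
    exp (2 * I * z i) ^ a i * exp (2 * ql i) * exp (2 * qr i) = 1 := by
  rw [← Complex.exp_nat_mul, ← Complex.exp_add, ← Complex.exp_add]
  have h1 := h.eq i hi
  have e : (a i : ℂ) * (2 * I * z i) + 2 * ql i + 2 * qr i = 2 * Real.pi * I := by
    linear_combination 2 * I * h1 + 2 * (ql i + qr i) * I_sq
  rw [e, Complex.exp_two_pi_mul_I]

theorem Crt.fan_sum (h : Crt R a z ql qr) (i : ℕ) (hi : i ≤ R) :
    ∑ k ∈ Finset.Icc 1 (a i - 1), blochWigner (zz z ql i k) =
      sD (z i) (ql i) + sD (z i) (qr i) := by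
  have ha := h.ha i hi
  obtain ⟨P, hP⟩ : ∃ P : ℕ, a i = P + 2 := ⟨a i - 2, by omega⟩
  have hz : sin (z i) ≠ 0 := sin_ne (h.zre i hi)
  have hz' : sin (conj (z i)) ≠ 0 := sin_ne (h.cre i hi)
  have hend := h.exp_eq i hi
  set q := exp (2 * I * z i) with hq
  set e := exp (2 * ql i) with he
  set e' := exp (2 * qr i) with he'
  have hq0 : q ≠ 0 := Complex.exp_ne_zero _
  have he0 : e ≠ 0 := Complex.exp_ne_zero _
  have he0' : e' ≠ 0 := Complex.exp_ne_zero _
  have hq1 : q - 1 ≠ 0 := by
    intro h0
    have h2 := four_sin_sq (z i)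
    rw [← hq, h0] at h2
    exact mul_ne_zero (mul_ne_zero (by norm_num : (4 : ℂ) ≠ 0) (pow_ne_zero 2 hz)) hq0 (by rw [h2]; ring)
  -- the sequence
  set x : ℕ → ℂ := fun k => (q ^ k * e - 1) / (q - 1) with hx
  have hxs : ∀ k, x (k + 1) = 1 + q * x k := by
    intro k
    show (q ^ (k + 1) * e - 1) / (q - 1) = 1 + q * ((q ^ k * e - 1) / (q - 1))
    rw [pow_succ]
    field_simp
    ring
  have hxd : ∀ k, x (k + 1) - x k = q ^ k * e := by
    intro k
    show (q ^ (k + 1) * e - 1) / (q - 1) - (q ^ k * e - 1) / (q - 1) = q ^ k * e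
    rw [pow_succ]
    field_simp
    ring
  have hxX : ∀ k, Xx z ql i k ≠ 0 → x k ≠ 0 := by
    intro k hX h0
    apply hX
    have e0 : ze z ql i k = conj (ql i + I * (k : ℂ) * z i) := by
      unfold ze
      rw [map_add, map_mul, map_mul, conj_I, Complex.conj_natCast]
      ring
    have h1 := four_sinh_sq (ql i + I * (k : ℂ) * z i)
    have e1 : exp (2 * (ql i + I * (k : ℂ) * z i)) = q ^ k * e := by
      rw [hq, he, ← Complex.exp_nat_mul, ← Complex.exp_add]
      congr 1
      ring
    have h2 : q ^ k * e - 1 = 0 := by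
      have h3 : (q ^ k * e - 1) / (q - 1) = 0 := h0
      rcases div_eq_zero_iff.1 h3 with h4 | h4
      · exact h4
      · exact absurd h4 hq1
    rw [e1, h2] at h1
    have h3 : sinh (ql i + I * (k : ℂ) * z i) = 0 := by
      by_contra hcon
      exact mul_ne_zero (mul_ne_zero (by norm_num : (4 : ℂ) ≠ 0) (pow_ne_zero 2 hcon))
        (mul_ne_zero (pow_ne_zero _ hq0) he0) (by rw [h1]; ring)
    unfold Xx
    rw [e0, sinh_conj, h3, map_zero, zero_div]
  have hxne : ∀ k, k ≤ a i → (i = 0 → 1 ≤ k) → (i = R → k ≤ a i - 1) → x k ≠ 0 :=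
    fun k h1 h2 h3 => hxX k (h.X_ne i k hi h1 h2 h3)
  -- telescoping
  have hrel : ∀ k, k + 2 ≤ a i → blochWigner (zz z ql i (k + 1)) =
      blochWigner (x (k + 2)) - blochWigner (x (k + 1)) - blochWigner (x (k + 2) / x (k + 1)) +
        blochWigner (x (k + 1) / x k) := by
    intro k hk
    have hzk : zz z ql i (k + 1) = q ^ k * e / x (k + 1) ^ 2 :=
      zz_eq z ql i k hz (h.X_ne i (k + 1) hi (by omega) (by omega) (by omega))
    rw [hzk]
    by_cases hl : i = 0 ∧ k = 0
    · obtain ⟨hl, rfl⟩ := hl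
      have hb : e = 1 := by
        rw [he, hl, h.l0]
        simp
      have x0 : x 0 = 0 := by
        show (q ^ 0 * e - 1) / (q - 1) = 0
        rw [hb]
        simp
      have x1 : x (0 + 1) = 1 := by rw [hxs, x0]; ring
      rw [x1, x0, hb]
      simp [FanSum_zero, FanSum_one]
    · by_cases hr : i = R ∧ k + 2 = a i
      · obtain ⟨hr, hk2⟩ := hr
        have hb1 : e' = 1 := by
          rw [he', hr, h.rR]
          simp
        have hb : q ^ a i * e = 1 := by
          rw [hb1, mul_one] at hend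
          exact hend
        have x2 : x (k + 2) = 0 := by
          show (q ^ (k + 2) * e - 1) / (q - 1) = 0
          rw [hk2, hb]
          simp
        have hE2 : q ^ k * e = 1 / q ^ 2 := by
          rw [← hk2, pow_add] at hb
          field_simp
          linear_combination hb
        have x1 : x (k + 1) = -1 / q := by
          have h1 := hxs (k + 1)
          rw [x2] at h1
          field_simp
          linear_combination -h1
        have x0 : x k = -(1 + q) / q ^ 2 := by
          have h1 := hxd k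
          rw [hE2, x1] at h1
          have h2 : x k = -1 / q - 1 / q ^ 2 := by linear_combination -h1
          rw [h2]
          field_simp
          ring
        have n0 : x k ≠ 0 := hxne k (by omega) (fun hn => by
          rcases Nat.eq_zero_or_pos k with h0 | h0
          · exact absurd ⟨hn, h0⟩ hl
          · exact h0) (fun _ => by omega)
        have nq : 1 + q ≠ 0 := by
          intro h0
          rw [x0, h0] at n0
          simp at n0
        rw [x2, x1, hE2, x0]
        have a1 : 1 / q ^ 2 / (-1 / q) ^ 2 = 1 := by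
          field_simp
        have a2 : -1 / q / (-(1 + q) / q ^ 2) = 1 - 1 / (1 + q) := by
          field_simp
          ring
        have a3 : blochWigner (-1 / q) = -blochWigner (-q) := by
          rw [← SWpath_inv]
          congr 1
          field_simp
        have a4 : blochWigner (1 / (1 + q)) = blochWigner (-q) := by
          rw [one_div, SWpath_inv, show 1 + q = 1 - -q by ring, SWpath_one_sub, neg_neg]
        rw [a1, a2, zero_div, FanSum_one, FanSum_zero, SWpath_one_sub, a3, a4]
        ring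
      · have n0 : x k ≠ 0 := hxne k (by omega) (fun hn => by
          rcases Nat.eq_zero_or_pos k with h0 | h0
          · exact absurd ⟨hn, h0⟩ hl
          · exact h0) (fun _ => by omega)
        have n1 : x (k + 1) ≠ 0 := hxne (k + 1) (by omega) (fun _ => by omega) (fun _ => by omega)
        have n2 : x (k + 2) ≠ 0 := hxne (k + 2) (by omega) (fun _ => by omega) (fun hn => by
          have : k + 2 ≠ a i := fun h0 => hr ⟨hn, h0⟩
          omega)
        exact FanSum_rel q (q ^ k * e) (x k) (x (k + 1)) (x (k + 2)) hq0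
          (mul_ne_zero (pow_ne_zero _ hq0) he0) (hxs k) (hxs (k + 1)) (hxd k) n0 n1 n2
  have hmain : ∀ j, j + 2 ≤ a i → ∑ k ∈ Finset.Icc 1 (j + 1), blochWigner (zz z ql i k) =
      (blochWigner (x (j + 2)) - blochWigner (x (j + 2) / x (j + 1))) +
        (blochWigner (x 1 / x 0) - blochWigner (x 1)) := by
    intro j
    induction j with
    | zero =>
      intro hj
      rw [Finset.Icc_self, Finset.sum_singleton, hrel 0 hj]
      ring
    | succ j ih =>
      intro hj
      rw [Finset.sum_Icc_succ_top (by omega), ih (by omega), hrel (j + 1) hj]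
      ring
  have hsum := hmain P (by omega)
  rw [show a i - 1 = P + 1 by omega, hsum, add_comm (sD (z i) (ql i))]
  congr 1
  · -- the right slot
    unfold sD
    rw [← hq, ← he']
    have hE : q ^ (P + 2) * e = 1 / e' := by
      rw [← hP]
      field_simp
      exact hend
    by_cases hiR : i = R
    · have hb1 : e' = 1 := by
        rw [he', hiR, h.rR]
        simp
      have x2 : x (P + 2) = 0 := by
        show (q ^ (P + 2) * e - 1) / (q - 1) = 0
        rw [hE, hb1]
        simp
      rw [x2, hb1, zero_div, FanSum_zero, mul_one, sub_self (1 : ℂ), div_zero, div_self hq1,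
        FanSum_zero, FanSum_one]
    · have n1 : x (P + 1) ≠ 0 := hxne (P + 1) (by omega) (fun _ => by omega) (fun _ => by omega)
      have n2 : x (P + 2) ≠ 0 := hxne (P + 2) (by omega) (fun _ => by omega)
        (fun h0 => absurd h0 hiR)
      have x2 : x (P + 2) = (1 - e') / (e' * (q - 1)) := by
        show (q ^ (P + 2) * e - 1) / (q - 1) = _
        rw [hE]
        field_simp
      have x1 : x (P + 1) = (1 - q * e') / (q * e' * (q - 1)) := by
        have h1 := hxs (P + 1)
        rw [x2] at h1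
        have h2 : x (P + 1) * q = (1 - e') / (e' * (q - 1)) - 1 := by
          linear_combination -h1
        have h3 : x (P + 1) = ((1 - e') / (e' * (q - 1)) - 1) / q := eq_div_of_mul_eq hq0 h2
        rw [h3]
        field_simp
        ring
      have m1 : 1 - e' ≠ 0 := by
        intro h0
        rw [x2, h0, zero_div] at n2
        exact n2 rfl
      have m2 : 1 - q * e' ≠ 0 := by
        intro h0
        rw [x1, h0, zero_div] at n1
        exact n1 rfl
      have m1' : e' - 1 ≠ 0 := fun h0 => m1 (by linear_combination -h0)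
      have m2' : q * e' - 1 ≠ 0 := fun h0 => m2 (by linear_combination -h0)
      have b1 : x (P + 2) = (1 - (q * e' - 1) / (e' - 1))⁻¹ := by
        have : 1 - (q * e' - 1) / (e' - 1) = e' * (q - 1) / (1 - e') := by
          field_simp
          ring
        rw [this, inv_div, x2]
      have b2 : x (P + 2) / x (P + 1) = 1 - ((q * e' - 1) / (q - 1))⁻¹ := by
        have l1 : x (P + 2) / x (P + 1) = q * (e' - 1) / (q * e' - 1) := by
          rw [div_eq_div_iff n1 m2', x2, x1]
          field_simp
          ring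
        have l2 : q * (e' - 1) / (q * e' - 1) = 1 - (q - 1) / (q * e' - 1) := by
          rw [eq_sub_iff_add_eq, ← add_div, div_eq_one_iff_eq m2']
          ring
        rw [l1, l2, inv_div]
      rw [b2, b1, SWpath_inv, SWpath_one_sub, SWpath_one_sub, SWpath_inv]
      ring
  · -- the left slot
    unfold sD
    rw [← hq, ← he]
    have x0 : x 0 = (e - 1) / (q - 1) := by
      show (q ^ 0 * e - 1) / (q - 1) = _
      rw [pow_zero, one_mul]
    have x1 : x 1 = (q * e - 1) / (q - 1) := by
      show (q ^ 1 * e - 1) / (q - 1) = _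
      rw [pow_one]
    rw [x1, x0, div_div_div_cancel_right₀ hq1]

end Pool.Agent.S3.G
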