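import Mathlib

/-!
# Stage 3, block G: positivity of the layers (real inequalities)

`PosPair ga ep s y` says that `X = sinh (s - i y) / sin (ga - i ep)` has `re X > 0` and `im X < 0`.
-/

namespace Pool.Agent.S3.G

open Real

/-- `tanh (k e) ≤ k tanh e`. -/
theorem g_tanh {e : ℝ} (he : 0 < e) (k : ℕ) :
    sinh (k * e) * cosh e ≤ k * cosh (k * e) * sinh e := by
  induction k with
  | zero => simp
  | succ k ih =>
    have hs : 0 < sinh e := sinh_pos_iff.2 he
    have hc := cosh_pos e
    have hsk : 0 ≤ sinh (k * e) := sinh_nonneg_iff.2 (by positivity)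
    have hck := cosh_pos (k * e)
    push_cast
    rw [add_mul, one_mul, sinh_add, cosh_add]
    have h1 := mul_le_mul_of_nonneg_right ih hc.le
    have h2 : 0 ≤ ((k : ℝ) + 1) * (sinh (k * e) * sinh e * sinh e) := by positivity
    linarith

theorem g_tanh_strict {e : ℝ} (he : 0 < e) (k : ℕ) (hk : 2 ≤ k) :
    sinh (k * e) * cosh e < k * cosh (k * e) * sinh e := by
  obtain ⟨k, rfl⟩ : ∃ k', k = k' + 1 := ⟨k - 1, by omega⟩
  have hk1 : (1 : ℝ) ≤ k := by exact_mod_cast (by omega : 1 ≤ k)
  have hs : 0 < sinh e := sinh_pos_iff.2 he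
  have hc := cosh_pos e
  have hsk : 0 < sinh (k * e) := sinh_pos_iff.2 (by positivity)
  have hck := cosh_pos (k * e)
  have ih := g_tanh he k
  push_cast
  rw [add_mul, one_mul, sinh_add, cosh_add]
  have h1 := mul_le_mul_of_nonneg_right ih hc.le
  have h2 : 0 < ((k : ℝ) + 1) * (sinh (k * e) * sinh e * sinh e) := by positivity
  linarith

/-- `k tan g ≤ tan (k g)`. -/
theorem g_tan {g : ℝ} (g0 : 0 < g) (k : ℕ) (hk : k * g ≤ π / 2) :
    k * cos (k * g) * sin g ≤ sin (k * g) * cos g := by
  induction k with
  | zero => simp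
  | succ k ih =>
    push_cast at hk
    have hk' : k * g ≤ π / 2 := by linarith
    rcases Nat.eq_zero_or_pos k with rfl | hpos
    · simp [mul_comm]
    have hk1 : (1 : ℝ) ≤ k := by exact_mod_cast hpos
    have hg : g ≤ π / 2 := by nlinarith
    have hs : 0 ≤ sin g := sin_nonneg_of_nonneg_of_le_pi g0.le (by linarith [pi_pos])
    have hc : 0 ≤ cos g := cos_nonneg_of_neg_pi_div_two_le_of_le (by linarith [pi_pos]) hg
    have hsk : 0 ≤ sin (k * g) :=
      sin_nonneg_of_nonneg_of_le_pi (by positivity) (by linarith [pi_pos])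
    have e : ((k + 1 : ℕ) : ℝ) * g = k * g + g := by push_cast; ring
    rw [e, sin_add, cos_add]
    push_cast
    have h1 := mul_le_mul_of_nonneg_right (ih hk') hc
    have h2 : 0 ≤ ((k : ℝ) + 1) * (sin (k * g) * sin g * sin g) := by positivity
    linarith

theorem g_tan' {g y : ℝ} (g0 : 0 < g) (g1 : g < π / 2) (k : ℕ) (hk : k * g ≤ y)
    (hy : y ≤ π / 2) : k * cos y * sin g ≤ sin y * cos g := by
  have hc : 0 < cos g := cos_pos_of_mem_Ioo ⟨by linarith [pi_pos], g1⟩
  have hs : 0 < sin g := sin_pos_of_pos_of_lt_pi g0 (by linarith [pi_pos])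
  have hkg : 0 ≤ (k : ℝ) * g := by positivity
  rcases eq_or_lt_of_le hy with rfl | hy'
  · rw [cos_pi_div_two, sin_pi_div_two]
    simpa using hc.le
  · have h1 := g_tan g0 k (by linarith)
    have hck : 0 < cos (k * g) := cos_pos_of_mem_Ioo ⟨by linarith [pi_pos], by linarith⟩
    have hcy : 0 < cos y := cos_pos_of_mem_Ioo ⟨by linarith [pi_pos], hy'⟩
    have h2 : cos y * sin (k * g) ≤ sin y * cos (k * g) := by
      have := sin_nonneg_of_nonneg_of_le_pi (x := y - k * g) (by linarith)
        (by linarith [pi_pos])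
      rw [sin_sub] at this
      linarith
    have h3 := mul_le_mul_of_nonneg_left h1 hcy.le
    have h4 := mul_le_mul_of_nonneg_right h2 hc.le
    have h5 : cos (k * g) * (k * cos y * sin g) ≤ cos (k * g) * (sin y * cos g) := by
      linarith
    exact le_of_mul_le_mul_left h5 hck

/-- `re X > 0` and `im X < 0` for `X = sinh (s - i y) / sin (ga - i ep)`. -/
def PosPair (ga ep s y : ℝ) : Prop :=
  0 < sinh s * cos y * (sin ga * cosh ep) + cosh s * sin y * (cos ga * sinh ep) ∧
    sinh s * cos y * (cos ga * sinh ep) - cosh s * sin y * (sin ga * cosh ep) < 0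

theorem PosPair.mirror {ga ep s y : ℝ} : PosPair ga ep (-s) (π - y) ↔ PosPair ga ep s y := by
  unfold PosPair
  rw [sinh_neg, cosh_neg, cos_pi_sub, sin_pi_sub, neg_mul_neg]

/-- The layers with `y ≤ π / 2`. -/
theorem PosPair_half {ga ep lr li : ℝ} (k : ℕ) (g0 : 0 < ga) (g1 : ga < π / 2) (e0 : 0 < ep)
    (l0 : 0 ≤ lr) (i0 : 0 ≤ li) (hk : 1 ≤ k) (hflat : k = 1 → 0 < lr)
    (hy : ga * k + li ≤ π / 2)
    (hB : 0 < lr → 0 < li ∧
      sinh lr * cos li * (cos ga * sinh ep) - cosh lr * sin li * (sin ga * cosh ep) < 0) :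
    PosPair ga ep (lr - ep * k) (ga * k + li) := by
  have hk1 : (1 : ℝ) ≤ k := by exact_mod_cast hk
  have hgk : 0 < ga * k := by positivity
  have hek : 0 < ep * k := by positivity
  set y := ga * k + li with hyd
  have hy0 : 0 < y := by linarith
  have hsy : 0 < sin y := sin_pos_of_pos_of_lt_pi hy0 (by linarith [pi_pos])
  have hcy : 0 ≤ cos y := cos_nonneg_of_neg_pi_div_two_le_of_le (by linarith [pi_pos]) hy
  have hcg : 0 < cos ga := cos_pos_of_mem_Ioo ⟨by linarith [pi_pos], g1⟩
  have hsg : 0 < sin ga := sin_pos_of_pos_of_lt_pi g0 (by linarith [pi_pos])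
  have hse : 0 < sinh ep := sinh_pos_iff.2 e0
  have hce : 0 < cosh ep := cosh_pos ep
  rcases le_or_gt 0 (lr - ep * k) with hs | hs
  · -- case (a)
    set s := lr - ep * k with hsd
    have hlr : 0 < lr := by linarith
    obtain ⟨hli, hB⟩ := hB hlr
    have hss : 0 ≤ sinh s := sinh_nonneg_iff.2 hs
    have hcs := cosh_pos s
    refine ⟨by positivity, ?_⟩
    have h1 : sinh s * cosh lr ≤ sinh lr * cosh s := by
      have := sinh_nonneg_iff.2 (show 0 ≤ lr - s by linarith)
      rw [sinh_sub] at this
      linarith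
    have h2 : cos y * sin li ≤ sin y * cos li := by
      have := sin_nonneg_of_nonneg_of_le_pi (x := y - li) (by linarith) (by linarith [pi_pos])
      rw [sin_sub] at this
      linarith
    have hsl : 0 < sin li := sin_pos_of_pos_of_lt_pi hli (by linarith [pi_pos])
    have hcl : 0 ≤ cos li := cos_nonneg_of_neg_pi_div_two_le_of_le (by linarith [pi_pos])
      (by linarith)
    have hclr := cosh_pos lr
    have hslr : 0 < sinh lr := sinh_pos_iff.2 hlr
    have h3 : (sinh s * cosh lr) * (cos y * sin li) ≤ (sinh lr * cosh s) * (sin y * cos li) :=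
      mul_le_mul h1 h2 (by positivity) (by positivity)
    have h4 := mul_le_mul_of_nonneg_right h3 (show 0 ≤ cos ga * sinh ep by positivity)
    have h5 := mul_lt_mul_of_pos_left hB (show 0 < cosh s * sin y by positivity)
    have h6 : 0 < cosh lr * sin li := by positivity
    by_contra hcon
    have h7 := mul_le_mul_of_nonneg_left (not_lt.1 hcon) h6.le
    linarith
  · -- case (b)
    obtain ⟨t, ht⟩ : ∃ t, lr - ep * k = -t := ⟨-(lr - ep * k), by ring⟩
    rw [ht] at hs ⊢
    have ht0 : 0 < t := by linarith
    have htk : t ≤ k * ep := by linarith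
    have hst : 0 < sinh t := sinh_pos_iff.2 ht0
    have hct := cosh_pos t
    unfold PosPair
    rw [sinh_neg, cosh_neg]
    refine ⟨?_, ?_⟩
    · have h1 : sinh t * cosh (k * ep) ≤ sinh (k * ep) * cosh t := by
        have := sinh_nonneg_iff.2 (show 0 ≤ k * ep - t by linarith)
        rw [sinh_sub] at this
        linarith
      have h2 := g_tanh e0 k
      have hckp := cosh_pos (k * ep)
      have h3 : sinh t * cosh ep < k * cosh t * sinh ep := by
        have h4 := mul_le_mul_of_nonneg_right h1 hce.le
        have h5 := mul_le_mul_of_nonneg_left h2 hct.le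
        have h6 : cosh (k * ep) * (sinh t * cosh ep) < cosh (k * ep) * (k * cosh t * sinh ep) := by
          rcases Nat.lt_or_ge 1 k with h7 | h7
          · have h8 := mul_lt_mul_of_pos_left (g_tanh_strict e0 k h7) hct
            linarith
          · have hk' : k = 1 := by omega
            have hlr := hflat hk'
            have h1' : sinh t * cosh (k * ep) < sinh (k * ep) * cosh t := by
              have := sinh_pos_iff.2 (show 0 < k * ep - t by linarith)
              rw [sinh_sub] at this
              linarith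
            have h4' := mul_lt_mul_of_pos_right h1' hce
            linarith
        exact lt_of_mul_lt_mul_left h6 hckp.le
      have h4 := g_tan' g0 g1 k (y := y) (by linarith) hy
      rcases eq_or_lt_of_le hcy with h5 | h5
      · rw [← h5]
        have : 0 < cosh t * sin y * (cos ga * sinh ep) := by positivity
        linarith
      · have h6 := mul_lt_mul_of_pos_right h3 (show 0 < cos y * sin ga by positivity)
        have h7 := mul_le_mul_of_nonneg_left h4 (show 0 ≤ cosh t * sinh ep by positivity)
        linarith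
    · have h1 : 0 ≤ sinh t * cos y * (cos ga * sinh ep) := by positivity
      have h2 : 0 < cosh t * sin y * (sin ga * cosh ep) := by positivity
      linarith

end Pool.Agent.S3.G
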